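import Mathlib

set_option autoImplicit false

namespace Pool.Agent.H.MP_7f0ddb_an

open scoped ComplexConjugate

/-- the Hilbert space l2(Y) -/
noncomputable abbrev L2 (Y : Type) := lp (fun _ : Y => ℂ) 2

/-- bounded operators on l2(Y) -/
abbrev Op (Y : Type) := L2 Y →L[ℂ] L2 Y

open Classical in
/-- basis vector -/
noncomputable def dl {Y : Type} (y : Y) : L2 Y := lp.single 2 y 1

section basic
variable {X Y Z : Type}

open Classical in
lemma dl_apply (y x : Y) : dl y x = if x = y then 1 else 0 := by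
  simp [dl, lp.single_apply, Pi.single_apply]

lemma dl_norm (y : Y) : ‖dl y‖ = 1 := by
  classical
  unfold dl
  rw [lp.norm_single (by simp)]; simp

lemma inner_dl (y : Y) (f : L2 Y) : inner ℂ (dl y) f = f y := by
  simp [dl, lp.inner_single_left]

lemma ext_dl {a b : L2 X →L[ℂ] L2 Y} (h : ∀ x, a (dl x) = b (dl x)) : a = b := by
  classical
  refine lp.ext_continuousLinearMap (by simp) fun i => ?_
  ext1
  exact h i

lemma ext_en {a b : L2 X →L[ℂ] L2 Y} (h : ∀ x y, a (dl x) y = b (dl x) y) : a = b :=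
  ext_dl fun x => lp.ext (funext (h x))

lemma en_le (a : L2 X →L[ℂ] L2 Y) (x : X) (y : Y) : ‖a (dl x) y‖ ≤ ‖a‖ :=
  (lp.norm_apply_le_norm (by simp) _ y).trans (by simpa [dl_norm] using a.le_opNorm (dl x))

lemma en_star (a : Op X) (x y : X) : (star a) (dl x) y = conj (a (dl y) x) := by
  rw [← inner_dl, ← inner_dl, ContinuousLinearMap.star_eq_adjoint,
    ContinuousLinearMap.adjoint_inner_right, inner_conj_symm]

lemma WP_sum (c : X → ℂ) (hc : ∀ x, ‖c x‖ = 1) (g : X ≃ Y) (f : L2 Y) (t : Finset X) :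
    ∑ x ∈ t, ‖c x * f (g x)‖ ^ (2 : ENNReal).toReal ≤ ‖f‖ ^ (2 : ENNReal).toReal := by
  refine le_trans ?_ (lp.sum_rpow_le_norm_rpow (by simp) f (t.map g.toEmbedding))
  rw [Finset.sum_map]
  exact Finset.sum_le_sum fun x _ => by simp [hc]

/-- weighted permutation operators -/
noncomputable def WP (c : X → ℂ) (hc : ∀ x, ‖c x‖ = 1) (g : X ≃ Y) : L2 Y →L[ℂ] L2 X :=
  LinearMap.mkContinuous
    { toFun := fun f => ⟨fun x => c x * f (g x), memℓp_gen' (WP_sum c hc g f)⟩
      map_add' := fun f h => by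
        ext x
        change c x * (f + h) (g x) = c x * f (g x) + c x * h (g x)
        simp [mul_add]
      map_smul' := fun a f => by
        ext x
        change c x * (a • f) (g x) = a • (c x * f (g x))
        simp [mul_left_comm] } 1 fun f => by
    rw [one_mul]
    exact lp.norm_le_of_forall_sum_le (by simp) (norm_nonneg _) (WP_sum c hc g f)

lemma WP_apply (c : X → ℂ) (hc : ∀ x, ‖c x‖ = 1) (g : X ≃ Y) (f : L2 Y) (x : X) :
    WP c hc g f x = c x * f (g x) := rfl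

lemma WP_norm (c : X → ℂ) (hc : ∀ x, ‖c x‖ = 1) (g : X ≃ Y) : ‖WP c hc g‖ ≤ 1 :=
  LinearMap.mkContinuous_norm_le _ zero_le_one _

lemma cc {z : ℂ} (h : ‖z‖ = 1) : conj z * z = 1 := by
  rw [Complex.conj_mul', h]; simp

end basic

/-- unimodular bicharacters -/
structure Bi (G : Type) [AddCommGroup G] where
  s : G → G → ℂ
  hn : ∀ a b, ‖s a b‖ = 1
  hl : ∀ a b c, s (a + b) c = s a c * s b c
  hr : ∀ a b c, s a (b + c) = s a b * s a c

namespace Bi
variable {G : Type} [AddCommGroup G] (σ : Bi G)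

lemma ne (a b : G) : σ.s a b ≠ 0 := by
  intro h; simpa [h] using σ.hn a b

@[simp] lemma zl (a : G) : σ.s 0 a = 1 :=
  mul_left_cancel₀ (σ.ne 0 a) (by rw [← σ.hl]; simp)

@[simp] lemma zr (a : G) : σ.s a 0 = 1 :=
  mul_left_cancel₀ (σ.ne a 0) (by rw [← σ.hr]; simp)

lemma nl (a b : G) : σ.s (-a) b = conj (σ.s a b) :=
  mul_right_cancel₀ (σ.ne a b) (by rw [← σ.hl, cc (σ.hn a b)]; simp)

lemma nr (a b : G) : σ.s a (-b) = conj (σ.s a b) :=
  mul_right_cancel₀ (σ.ne a b) (by rw [← σ.hr, cc (σ.hn a b)]; simp)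

/-- the opposite bicharacter -/
def op : Bi G := ⟨fun a b => σ.s b a, fun _ _ => σ.hn _ _, fun _ _ _ => σ.hr _ _ _,
  fun _ _ _ => σ.hl _ _ _⟩

/-- twisted translations -/
noncomputable def W (g : G) : Op G :=
  WP (fun x => σ.s g (x - g)) (fun _ => σ.hn _ _) (Equiv.subRight g)

lemma W_apply (g : G) (f : L2 G) (x : G) : σ.W g f x = σ.s g (x - g) * f (x - g) := rfl

lemma W_norm (g : G) : ‖σ.W g‖ ≤ 1 := WP_norm _ _ _

lemma W_dl (g h : G) : σ.W g (dl h) = σ.s g h • dl (g + h) := by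
  ext x
  rw [W_apply, lp.coeFn_smul, Pi.smul_apply, dl_apply, dl_apply]
  by_cases e : x = g + h
  · simp [e]
  · rw [if_neg e, if_neg fun e' => e (by rw [← e']; abel)]; simp

lemma W_mul (g h : G) : σ.W g * σ.W h = σ.s g h • σ.W (g + h) := by
  refine ext_dl fun x => ?_
  simp only [ContinuousLinearMap.mul_apply, ContinuousLinearMap.smul_apply, W_dl, map_smul,
    smul_smul, add_assoc, σ.hl, σ.hr]
  congr 1; ring

lemma W_zero : σ.W 0 = 1 := ext_dl fun x => by simp [W_dl]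

lemma W_star (g : G) : star (σ.W g) = σ.s g g • σ.W (-g) := by
  refine ext_en fun x y => ?_
  rw [en_star, ContinuousLinearMap.smul_apply, W_dl, W_dl]
  simp only [lp.coeFn_smul, Pi.smul_apply, dl_apply, smul_eq_mul]
  by_cases e : x = g + y
  · subst e
    have := cc (σ.hn g g)
    simp only [σ.nl, σ.hr, map_mul, neg_add_cancel_left, if_true, map_one, mul_one]
    linear_combination (-conj (σ.s g y)) * this
  · rw [if_neg e, if_neg fun e' => e (by rw [e']; abel)]; simp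

lemma W_sW (g : G) : star (σ.W g) * σ.W g = 1 := by
  rw [W_star, smul_mul_assoc, W_mul, smul_smul, σ.nl, mul_comm, cc (σ.hn _ _)]
  simp [W_zero]

lemma W_Ws (g : G) : σ.W g * star (σ.W g) = 1 := by
  rw [W_star, mul_smul_comm, W_mul, smul_smul, σ.nr, mul_comm, cc (σ.hn _ _)]
  simp [W_zero]

lemma W_op (g h : G) : σ.W g * σ.op.W h = σ.op.W h * σ.W g := by
  refine ext_dl fun x => ?_
  simp only [ContinuousLinearMap.mul_apply, W_dl, map_smul, smul_smul, op, σ.hl, σ.hr]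
  rw [add_left_comm]; congr 1; ring

lemma W_comm {g h : G} (e : σ.s g h = σ.s h g) : Commute (σ.W g) (σ.W h) := by
  rw [Commute, SemiconjBy, W_mul, W_mul, e, add_comm]

/-- span of the twisted translations -/
noncomputable def Sm : Submodule ℂ (Op G) := Submodule.span ℂ (Set.range σ.W)

lemma W_Sm (g : G) : σ.W g ∈ σ.Sm := Submodule.subset_span ⟨g, rfl⟩

lemma Sm_ind {P : Op G → Prop} (hW : ∀ g, P (σ.W g)) (h0 : P 0)
    (ha : ∀ a b, P a → P b → P (a + b)) (hs : ∀ (c : ℂ) a, P a → P (c • a)) :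
    ∀ a ∈ σ.Sm, P a := fun a h => by
  induction h using Submodule.span_induction with
  | mem x hx => obtain ⟨g, rfl⟩ := hx; exact hW g
  | zero => exact h0
  | add x y _ _ h1 h2 => exact ha _ _ h1 h2
  | smul c x _ h1 => exact hs _ _ h1

lemma Sm_mul {a b : Op G} (ha : a ∈ σ.Sm) (hb : b ∈ σ.Sm) : a * b ∈ σ.Sm := by
  refine σ.Sm_ind (P := fun a => a * b ∈ σ.Sm) (fun g => ?_) (by simp)
    (fun _ _ h k => by rw [add_mul]; exact add_mem h k)
    (fun c _ h => by rw [smul_mul_assoc]; exact Submodule.smul_mem _ _ h) a ha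
  exact σ.Sm_ind (P := fun b => σ.W g * b ∈ σ.Sm)
    (fun h => by rw [W_mul]; exact Submodule.smul_mem _ _ (σ.W_Sm _)) (by simp)
    (fun _ _ h k => by rw [mul_add]; exact add_mem h k)
    (fun c _ h => by rw [mul_smul_comm]; exact Submodule.smul_mem _ _ h) b hb

lemma Sm_star {a : Op G} (ha : a ∈ σ.Sm) : star a ∈ σ.Sm :=
  σ.Sm_ind (P := fun a => star a ∈ σ.Sm)
    (fun h => by rw [W_star]; exact Submodule.smul_mem _ _ (σ.W_Sm _)) (by simp)
    (fun _ _ h k => by rw [star_add]; exact add_mem h k)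
    (fun c _ h => by rw [star_smul]; exact Submodule.smul_mem _ _ h) a ha

/-- algebraic twisted group algebra -/
noncomputable def Sp : StarSubalgebra ℂ (Op G) :=
  { σ.Sm.toSubalgebra (σ.W_zero ▸ σ.W_Sm 0) (fun _ _ => σ.Sm_mul) with
    star_mem' := σ.Sm_star }

/-- reduced twisted group algebra -/
noncomputable def Alg : StarSubalgebra ℂ (Op G) := σ.Sp.topologicalClosure

lemma Alg_closed : IsClosed (σ.Alg : Set (Op G)) := σ.Sp.isClosed_topologicalClosure

lemma mem_Alg {a : Op G} : a ∈ σ.Alg ↔ a ∈ closure (σ.Sm : Set (Op G)) := Iff.rfl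

lemma Sm_Alg {a : Op G} (h : a ∈ σ.Sm) : a ∈ σ.Alg := σ.mem_Alg.2 (subset_closure h)

lemma W_Alg (g : G) : σ.W g ∈ σ.Alg := σ.Sm_Alg (σ.W_Sm g)

lemma approx {a : Op G} (h : a ∈ σ.Alg) {ε : ℝ} (hε : 0 < ε) : ∃ b ∈ σ.Sm, ‖a - b‖ < ε := by
  simpa [dist_eq_norm] using Metric.mem_closure_iff.1 (σ.mem_Alg.1 h) ε hε

lemma Alg_ind {P : Op G → Prop} (hW : ∀ g, P (σ.W g)) (h0 : P 0)
    (ha : ∀ a b, P a → P b → P (a + b)) (hs : ∀ (c : ℂ) a, P a → P (c • a))
    (hc : IsClosed {a | P a}) : ∀ a ∈ σ.Alg, P a := fun _ h =>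
  closure_minimal (fun b hb => σ.Sm_ind hW h0 ha hs b hb) hc (σ.mem_Alg.1 h)

/-- the canonical trace -/
noncomputable def tr (G : Type) [AddCommGroup G] : Op G →L[ℂ] ℂ :=
  (lp.evalCLM ℂ (fun _ : G => ℂ) 2 0).comp (ContinuousLinearMap.apply ℂ (L2 G) (dl 0))

lemma tr_apply (a : Op G) : tr G a = a (dl 0) 0 := rfl

open Classical in
lemma tr_W (g : G) : tr G (σ.W g) = if g = 0 then 1 else 0 := by
  rw [tr_apply, W_dl]; simp [dl_apply, eq_comm]

lemma tr_one : tr G 1 = 1 := by simp [tr_apply, dl_apply]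

lemma tr_le (a : Op G) : ‖tr G a‖ ≤ ‖a‖ := en_le a 0 0

lemma tr_comm {a b : Op G} (ha : a ∈ σ.Alg) (hb : b ∈ σ.Alg) : tr G (a * b) = tr G (b * a) := by
  refine σ.Alg_ind (P := fun a => tr G (a * b) = tr G (b * a)) (fun g => ?_) (by simp)
    (fun _ _ h k => by simp only [add_mul, mul_add, map_add, h, k])
    (fun c _ h => by simp only [smul_mul_assoc, mul_smul_comm, map_smul, h])
    (isClosed_eq (by fun_prop) (by fun_prop)) a ha
  refine σ.Alg_ind (P := fun b => tr G (σ.W g * b) = tr G (b * σ.W g)) (fun h => ?_) (by simp)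
    (fun _ _ h k => by simp only [add_mul, mul_add, map_add, h, k])
    (fun c _ h => by simp only [smul_mul_assoc, mul_smul_comm, map_smul, h])
    (isClosed_eq (by fun_prop) (by fun_prop)) b hb
  rw [W_mul, W_mul, map_smul, map_smul, tr_W, tr_W, add_comm h g]
  split_ifs with e
  · obtain rfl : h = -g := eq_neg_of_add_eq_zero_right e
    rw [σ.nl, σ.nr]
  · simp

lemma tr_sq (a : Op G) : tr G (star a * a) = ((‖a (dl 0)‖ ^ 2 : ℝ) : ℂ) := by
  rw [tr_apply, ← inner_dl, ContinuousLinearMap.mul_apply, ContinuousLinearMap.star_eq_adjoint,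
    ContinuousLinearMap.adjoint_inner_right, inner_self_eq_norm_sq_to_K]
  simp

lemma sep {a : Op G} (ha : a ∈ σ.Alg) (h : a (dl 0) = 0) : a = 0 := by
  have hc : ∀ g, a * σ.op.W g = σ.op.W g * a := fun g =>
    σ.Alg_ind (P := fun a => a * σ.op.W g = σ.op.W g * a) (fun h => σ.W_op h g) (by simp)
      (fun _ _ h k => by rw [add_mul, mul_add, h, k])
      (fun c _ h => by rw [smul_mul_assoc, mul_smul_comm, h])
      (isClosed_eq (by fun_prop) (by fun_prop)) a ha
  refine ext_dl fun x => ?_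
  have := congrArg (fun T : Op G => T (dl 0)) (hc x)
  simpa [W_dl, h] using this

end Bi

end Pool.Agent.H.MP_7f0ddb_an
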