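import Pool.Agent.H.MP_7f0ddb_an.A

set_option autoImplicit false

namespace Pool.Agent.H.MP_7f0ddb_an

open scoped ComplexConjugate

namespace Bi
variable {G : Type} [AddCommGroup G] (σ : Bi G)

/-- one averaging step -/
noncomputable def P (h : G) : Module.End ℂ (Op G) where
  toFun x := (2⁻¹ : ℂ) • (x + σ.W h * x * star (σ.W h))
  map_add' x y := by rw [mul_add, add_mul, ← smul_add]; congr 1; abel
  map_smul' c x := by
    rw [mul_smul_comm, smul_mul_assoc, ← smul_add, smul_comm]; rfl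

lemma P_apply (h : G) (x : Op G) : σ.P h x = (2⁻¹ : ℂ) • (x + σ.W h * x * star (σ.W h)) := rfl

lemma P_W (h g : G) : σ.P h (σ.W g) = (2⁻¹ * (1 + σ.s h g * conj (σ.s g h))) • σ.W g := by
  have e : σ.W h * σ.W g = (σ.s h g * conj (σ.s g h)) • (σ.W g * σ.W h) := by
    rw [W_mul, W_mul, smul_smul, mul_assoc, cc (σ.hn _ _), mul_one, add_comm]
  rw [P_apply, e, smul_mul_assoc, mul_assoc, W_Ws, mul_one, mul_smul (2⁻¹ : ℂ), add_smul, one_smul]

lemma P_norm (h : G) (x : Op G) : ‖σ.P h x‖ ≤ ‖x‖ := by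
  have h1 := σ.W_norm h
  have h2 : ‖σ.W h * x * star (σ.W h)‖ ≤ ‖x‖ := by
    refine (norm_mul_le _ _).trans ?_
    have h3 : ‖star (σ.W h)‖ ≤ 1 := (norm_star (σ.W h)).trans_le h1
    calc _ ≤ (1 * ‖x‖) * 1 := by
          gcongr
          exact (norm_mul_le _ _).trans (by gcongr)
      _ = _ := by ring
  rw [P_apply, norm_smul]
  have := norm_add_le x (σ.W h * x * star (σ.W h))
  simp only [norm_inv, Complex.norm_ofNat]
  linarith

/-- averaging maps -/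
noncomputable def S : Submonoid (Module.End ℂ (Op G)) := Submonoid.closure (Set.range σ.P)

lemma S_ind {Q : Module.End ℂ (Op G) → Prop} (h : ∀ h, Q (σ.P h)) (h1 : Q 1)
    (hm : ∀ a b, Q a → Q b → Q (a * b)) : ∀ Φ ∈ σ.S, Q Φ := fun Φ hΦ => by
  induction hΦ using Submonoid.closure_induction with
  | mem x hx => obtain ⟨g, rfl⟩ := hx; exact h g
  | one => exact h1
  | mul x y _ _ a b => exact hm _ _ a b

lemma S_norm {Φ : Module.End ℂ (Op G)} (h : Φ ∈ σ.S) : ∀ x, ‖Φ x‖ ≤ ‖x‖ :=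
  σ.S_ind (Q := fun Φ => ∀ x, ‖Φ x‖ ≤ ‖x‖) σ.P_norm (fun _ => le_rfl)
    (fun _ _ a b x => (a _).trans (b x)) Φ h

lemma S_one {Φ : Module.End ℂ (Op G)} (h : Φ ∈ σ.S) : Φ 1 = 1 :=
  σ.S_ind (Q := fun Φ => Φ 1 = 1) (fun h => by
    rw [P_apply, mul_one, W_Ws, ← two_smul ℂ, smul_smul]; simp) rfl
    (fun a b k l => by rw [Module.End.mul_apply, l, k]) Φ h

lemma S_W {Φ : Module.End ℂ (Op G)} (h : Φ ∈ σ.S) (g : G) : ∃ c : ℂ, Φ (σ.W g) = c • σ.W g :=
  σ.S_ind (Q := fun Φ => ∃ c : ℂ, Φ (σ.W g) = c • σ.W g) (fun h => ⟨_, σ.P_W h g⟩)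
    ⟨1, by simp⟩ (fun a b ⟨c, k⟩ ⟨d, l⟩ =>
      ⟨d * c, by rw [Module.End.mul_apply, l, map_smul, k, smul_smul]⟩) Φ h

lemma half_lt {w : ℂ} (h : ‖w‖ = 1) (h1 : w ≠ 1) : ‖2⁻¹ * (1 + w)‖ < 1 := by
  have e : w.re ^ 2 + w.im ^ 2 = 1 := by
    have := Complex.sq_norm w
    rw [h, Complex.normSq_apply] at this; linarith
  have hr : w.re < 1 := by
    by_contra c
    have h2 : w.re = 1 := by nlinarith [sq_nonneg w.im]
    exact h1 (Complex.ext h2 (by rw [h2] at e; simpa using (by linarith : w.im ^ 2 = 0)))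
  rw [norm_mul, norm_inv, Complex.norm_ofNat]
  have : ‖1 + w‖ ^ 2 < 2 ^ 2 := by
    rw [Complex.sq_norm, Complex.normSq_apply]; simp only [Complex.add_re, Complex.one_re,
      Complex.add_im, Complex.one_im]; nlinarith
  have := lt_of_pow_lt_pow_left₀ 2 (by norm_num) this
  linarith

lemma dix (nd : ∀ g, g ≠ 0 → ∃ h, σ.s h g ≠ σ.s g h) {b : Op G} (hb : b ∈ σ.Sm) :
    ∀ ε > 0, ∀ Φ ∈ σ.S, ∃ Ψ ∈ σ.S, ‖Ψ (Φ b) - tr G b • 1‖ < ε := by
  have key : ∀ Ψ ∈ σ.S, ∀ (x : Op G) (c : ℂ), ‖Ψ x - c • 1‖ ≤ ‖x - c • 1‖ := fun Ψ h x c => by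
    have := σ.S_norm h (x - c • 1)
    rwa [map_sub, map_smul, σ.S_one h] at this
  refine σ.Sm_ind (P := fun b => ∀ ε > 0, ∀ Φ ∈ σ.S, ∃ Ψ ∈ σ.S, ‖Ψ (Φ b) - tr G b • 1‖ < ε)
    (fun g ε hε Φ hΦ => ?_) (fun ε hε Φ hΦ => ⟨1, one_mem _, by simpa using hε⟩)
    (fun a b h k ε hε Φ hΦ => ?_) (fun c a h ε hε Φ hΦ => ?_) b hb
  · by_cases e : g = 0
    · subst e
      exact ⟨1, one_mem _, by simpa [W_zero, σ.S_one hΦ, tr_one] using hε⟩
    obtain ⟨h, hh⟩ := nd g e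
    obtain ⟨c, hc⟩ := σ.S_W hΦ g
    set q : ℂ := 2⁻¹ * (1 + σ.s h g * conj (σ.s g h)) with hq
    have hq1 : ‖q‖ < 1 := half_lt (by simp [σ.hn]) fun e' => hh (by
      have := congrArg (· * σ.s g h) e'
      simpa [mul_assoc, cc (σ.hn g h)] using this)
    have hp : ∀ n : ℕ, (σ.P h ^ n) (σ.W g) = q ^ n • σ.W g := fun n => by
      induction n with
      | zero => simp
      | succ n ih => rw [pow_succ', Module.End.mul_apply, ih, map_smul, P_W, smul_smul, pow_succ]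
    have ht := (tendsto_pow_atTop_nhds_zero_of_lt_one (norm_nonneg q) hq1).const_mul ‖c‖
    rw [mul_zero] at ht
    obtain ⟨n, hn⟩ := (ht.eventually (gt_mem_nhds hε)).exists
    refine ⟨σ.P h ^ n, pow_mem (Submonoid.subset_closure (Set.mem_range_self h)) n, ?_⟩
    rw [hc, map_smul, hp, tr_W, if_neg e, zero_smul, sub_zero, norm_smul, norm_smul, norm_pow]
    refine lt_of_le_of_lt ?_ hn
    gcongr
    exact mul_le_of_le_one_right (by positivity) (σ.W_norm g)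
  · obtain ⟨Ψ, hΨ, h1⟩ := h (ε / 2) (by linarith) Φ hΦ
    obtain ⟨Θ, hΘ, h2⟩ := k (ε / 2) (by linarith) (Ψ * Φ) (mul_mem hΨ hΦ)
    refine ⟨Θ * Ψ, mul_mem hΘ hΨ, ?_⟩
    have h3 := key Θ hΘ (Ψ (Φ a)) (tr G a)
    have e : (Θ * Ψ) (Φ (a + b)) - tr G (a + b) • (1 : Op G) =
        (Θ (Ψ (Φ a)) - tr G a • 1) + (Θ ((Ψ * Φ) b) - tr G b • 1) := by
      simp only [Module.End.mul_apply, map_add, add_smul]; abel
    rw [e]
    linarith [norm_add_le (Θ (Ψ (Φ a)) - tr G a • 1) (Θ ((Ψ * Φ) b) - tr G b • 1)]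
  · obtain ⟨Ψ, hΨ, h1⟩ := h (ε / (‖c‖ + 1)) (by positivity) Φ hΦ
    refine ⟨Ψ, hΨ, ?_⟩
    rw [map_smul, map_smul, map_smul, smul_eq_mul, mul_smul, ← smul_sub, norm_smul]
    rw [lt_div_iff₀ (by positivity)] at h1
    nlinarith [norm_nonneg (Ψ (Φ a) - tr G a • 1)]

lemma S_ideal (I : TwoSidedIdeal σ.Alg) {Φ : Module.End ℂ (Op G)} (h : Φ ∈ σ.S) :
    ∀ a ∈ I, ∃ a' ∈ I, a'.1 = Φ a.1 := by
  refine σ.S_ind (Q := fun Φ => ∀ a ∈ I, ∃ a' ∈ I, a'.1 = Φ a.1) (fun h a ha => ?_)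
    (fun a ha => ⟨a, ha, rfl⟩) (fun Φ Ψ k l a ha => ?_) Φ h
  · let w : σ.Alg := ⟨σ.W h, σ.W_Alg h⟩
    refine ⟨algebraMap ℂ σ.Alg 2⁻¹ * (a + w * a * star w),
      I.mul_mem_left _ _ (I.add_mem ha (I.mul_mem_right _ _ (I.mul_mem_left _ _ ha))), ?_⟩
    rw [← Algebra.smul_def]; rfl
  · obtain ⟨a1, h1, e1⟩ := l a ha
    obtain ⟨a2, h2, e2⟩ := k a1 h1
    exact ⟨a2, h2, by rw [e2, e1]; rfl⟩

instance : CompleteSpace σ.Alg := σ.Alg_closed.completeSpace_coe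

theorem simple (nd : ∀ g, g ≠ 0 → ∃ h, σ.s h g ≠ σ.s g h) : IsSimpleRing σ.Alg := by
  have : Nontrivial σ.Alg := ⟨0, 1, fun h => by
    have := congrArg (fun a : σ.Alg => tr G a.1) h
    simp [tr_one] at this⟩
  refine IsSimpleRing.of_eq_bot_or_eq_top fun I => ?_
  rw [or_iff_not_imp_left, ← I.one_mem_iff]
  intro H
  obtain ⟨x, hx1, hx2 : x ≠ 0⟩ := SetLike.exists_of_lt (bot_lt_iff_ne_bot.mpr H : ⊥ < I)
  have hc : 0 < ‖x.1 (dl 0)‖ ^ 2 :=
    pow_pos (norm_pos_iff.2 fun e => hx2 (Subtype.ext (σ.sep x.2 e))) 2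
  set c := ‖x.1 (dl 0)‖ ^ 2 with hcd
  have ht : tr G (star x * x).1 = c := tr_sq x.1
  obtain ⟨b, hb, h1⟩ := σ.approx (star x * x).2 (by linarith : 0 < c / 3)
  obtain ⟨Ψ, hΨ, h2⟩ := σ.dix nd hb (c / 3) (by linarith) 1 (one_mem _)
  obtain ⟨a, ha, e⟩ := σ.S_ideal I hΨ (star x * x) (I.mul_mem_left _ _ hx1)
  have h3 := σ.S_norm hΨ ((star x * x).1 - b)
  have h4 := tr_le ((star x * x).1 - b)
  rw [map_sub] at h3 h4
  have h5 : ‖(tr G (star x * x).1 - tr G b) • (1 : Op G)‖ ≤ ‖(star x * x).1 - b‖ := by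
    rw [norm_smul]
    exact (mul_le_of_le_one_right (norm_nonneg _) ContinuousLinearMap.norm_id_le).trans h4
  have h6 : ‖a.1 - (c : ℂ) • 1‖ < c := by
    have : a.1 - (c : ℂ) • 1 = (Ψ (star x * x).1 - Ψ b) + (Ψ ((1 : Module.End ℂ (Op G)) b) - tr G b • 1)
        - (tr G (star x * x).1 - tr G b) • 1 := by
      rw [e, ht, sub_smul, Module.End.one_apply]; abel
    rw [this]
    refine (norm_sub_le _ _).trans_lt ?_
    linarith [norm_add_le (Ψ (star x * x).1 - Ψ b) (Ψ ((1 : Module.End ℂ (Op G)) b) - tr G b • 1)]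
  have hc' : (c : ℂ) ≠ 0 := by exact_mod_cast hc.ne'
  have h7 : ‖1 - (c : ℂ)⁻¹ • a‖ < 1 := by
    change ‖1 - (c : ℂ)⁻¹ • a.1‖ < 1
    have : 1 - (c : ℂ)⁻¹ • a.1 = (-(c : ℂ)⁻¹) • (a.1 - (c : ℂ) • 1) := by
      rw [smul_sub, smul_smul, neg_mul, inv_mul_cancel₀ hc', neg_smul, neg_smul, one_smul]; abel
    rw [this, norm_smul, norm_neg, norm_inv, Complex.norm_real, Real.norm_of_nonneg hc.le,
      inv_mul_lt_iff₀ hc, mul_one]
    exact h6
  have := (Units.oneSub _ h7).inv_mul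
  rw [Units.val_oneSub, sub_sub_cancel] at this
  rw [← this]
  exact I.mul_mem_left _ _ (by rw [Algebra.smul_def]; exact I.mul_mem_left _ _ ha)

theorem fin (n : ℕ) (v : Matrix (Fin n) (Fin n) σ.Alg) (h : star v * v = 1) :
    v * star v = 1 := by
  set q := 1 - v * star v with hq
  have hqq : star q * q = q := by
    have : v * star v * (v * star v) = v * star v := by
      rw [mul_assoc, ← mul_assoc (star v), h, one_mul]
    rw [hq, star_sub, star_one, star_mul, star_star, sub_mul, mul_sub, mul_sub, this]; simp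
  let T : Matrix (Fin n) (Fin n) σ.Alg → ℂ := fun m => ∑ i, tr G (m i i).1
  have hT : ∀ a b, T (a * b) = T (b * a) := fun a b => by
    simp only [T, Matrix.mul_apply, AddSubmonoidClass.coe_finset_sum, map_sum, MulMemClass.coe_mul]
    rw [Finset.sum_comm]
    exact Finset.sum_congr rfl fun i _ => Finset.sum_congr rfl fun j _ =>
      σ.tr_comm (a j i).2 (b i j).2
  have h0 : T q = 0 := by
    have : T q = T 1 - T (v * star v) := by
      simp only [T, hq, Matrix.sub_apply, AddSubgroupClass.coe_sub, map_sub, Finset.sum_sub_distrib]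
    rw [this, hT, h, sub_self]
  have h1 : ∑ i, ∑ j, ‖(q j i).1 (dl 0)‖ ^ 2 = 0 := by
    rw [← hqq] at h0
    simp only [T, Matrix.mul_apply, AddSubmonoidClass.coe_finset_sum, map_sum, MulMemClass.coe_mul,
      Matrix.star_apply, StarMemClass.coe_star, tr_sq] at h0
    exact_mod_cast h0
  have : q = 0 := by
    ext1 j i
    have h2 := (Finset.sum_eq_zero_iff_of_nonneg fun _ _ => by positivity).1 h1 i (Finset.mem_univ _)
    have h3 := (Finset.sum_eq_zero_iff_of_nonneg fun _ _ => by positivity).1 h2 j (Finset.mem_univ _)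
    exact Subtype.ext (σ.sep (q j i).2 (by simpa using h3))
  exact (sub_eq_zero.1 this).symm

end Bi

/-- a group of unimodular characters -/
structure Ch (K G : Type) [CommGroup K] [AddCommGroup G] where
  c : K → G → ℂ
  hn : ∀ k g, ‖c k g‖ = 1
  h1 : ∀ g, c 1 g = 1
  hl : ∀ k l g, c (k * l) g = c k g * c l g
  hr : ∀ k g h, c k (g + h) = c k g * c k h

namespace Ch
variable {K G : Type} [CommGroup K] [AddCommGroup G] (χ : Ch K G)

/-- multiplication operators -/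
noncomputable def M (k : K) : Op G := WP (χ.c k) (χ.hn k) (Equiv.refl G)

lemma M_apply (k : K) (f : L2 G) (x : G) : χ.M k f x = χ.c k x * f x := rfl

lemma M_dl (k : K) (x : G) : χ.M k (dl x) = χ.c k x • dl x := by
  ext y
  rw [M_apply, lp.coeFn_smul, Pi.smul_apply, dl_apply]
  split_ifs with e <;> simp [e]

lemma M_mul (k l : K) : χ.M k * χ.M l = χ.M (k * l) := by
  ext f x
  rw [ContinuousLinearMap.mul_apply, M_apply, M_apply, M_apply, χ.hl, mul_assoc]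

lemma M_one : χ.M 1 = 1 := by
  ext f x
  rw [M_apply, χ.h1, one_mul]; rfl

lemma c_inv (k : K) (g : G) : χ.c k⁻¹ g = conj (χ.c k g) := by
  have : χ.c k g ≠ 0 := fun h => by simpa [h] using χ.hn k g
  exact mul_right_cancel₀ this (by rw [← χ.hl, cc (χ.hn k g), inv_mul_cancel, χ.h1])

lemma M_star (k : K) : star (χ.M k) = χ.M k⁻¹ := by
  refine ext_en fun x y => ?_
  rw [en_star, M_apply, M_apply, dl_apply, dl_apply, c_inv]
  by_cases e : x = y
  · simp [e]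
  · simp [e, Ne.symm e]

/-- conjugation -/
noncomputable def ad (k : K) (a : Op G) : Op G := χ.M k * a * χ.M k⁻¹

lemma ad_en (k : K) (a : Op G) (x y : G) :
    χ.ad k a (dl x) y = χ.c k y * χ.c k⁻¹ x * a (dl x) y := by
  simp only [ad, ContinuousLinearMap.mul_apply, M_dl, map_smul, lp.coeFn_smul, Pi.smul_apply,
    M_apply, smul_eq_mul]
  ring

lemma ad_ad (k l : K) (a : Op G) : χ.ad k (χ.ad l a) = χ.ad (k * l) a := by
  rw [ad, ad, ad, mul_inv_rev, ← M_mul, ← M_mul]; simp only [mul_assoc]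

lemma ad_one (a : Op G) : χ.ad 1 a = a := by simp [ad, M_one]

lemma ad_add (k : K) (a b : Op G) : χ.ad k (a + b) = χ.ad k a + χ.ad k b := by
  simp only [ad, mul_add, add_mul]

lemma ad_smul (k : K) (c : ℂ) (a : Op G) : χ.ad k (c • a) = c • χ.ad k a := by
  simp only [ad, mul_smul_comm, smul_mul_assoc]

lemma ad_mul (k : K) (a b : Op G) : χ.ad k (a * b) = χ.ad k a * χ.ad k b := by
  have : χ.M k⁻¹ * χ.M k = 1 := by rw [M_mul, inv_mul_cancel, M_one]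
  simp only [ad, mul_assoc]
  rw [← mul_assoc (χ.M k⁻¹), this, one_mul]

lemma ad_star (k : K) (a : Op G) : χ.ad k (star a) = star (χ.ad k a) := by
  simp only [ad, star_mul, M_star, inv_inv, mul_assoc]

lemma ad_norm (k : K) (a : Op G) : ‖χ.ad k a‖ ≤ ‖a‖ := by
  have h1 : ‖χ.M k‖ ≤ 1 := WP_norm _ _ _
  have h2 : ‖χ.M k⁻¹‖ ≤ 1 := WP_norm _ _ _
  refine (norm_mul_le _ _).trans ?_
  calc _ ≤ (1 * ‖a‖) * 1 := by
        gcongr
        exact (norm_mul_le _ _).trans (by gcongr)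
    _ = _ := by ring

lemma ad_W (σ : Bi G) (k : K) (g : G) : χ.ad k (σ.W g) = χ.c k g • σ.W g := by
  refine ext_dl fun x => ?_
  simp only [ad, ContinuousLinearMap.mul_apply, M_dl, map_smul, Bi.W_dl, smul_smul,
    ContinuousLinearMap.smul_apply, χ.hr, c_inv]
  congr 1
  linear_combination (σ.s g x * χ.c k g) * cc (χ.hn k x)

lemma ad_Sm (σ : Bi G) (k : K) {a : Op G} (h : a ∈ σ.Sm) : χ.ad k a ∈ σ.Sm :=
  σ.Sm_ind (P := fun a => χ.ad k a ∈ σ.Sm)
    (fun g => by rw [ad_W]; exact Submodule.smul_mem _ _ (σ.W_Sm _)) (by simp [ad])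
    (fun _ _ h l => by rw [ad_add]; exact add_mem h l)
    (fun c _ h => by rw [ad_smul]; exact Submodule.smul_mem _ _ h) a h

lemma ad_Alg (σ : Bi G) (k : K) {a : Op G} (h : a ∈ σ.Alg) : χ.ad k a ∈ σ.Alg :=
  σ.Alg_ind (P := fun a => χ.ad k a ∈ σ.Alg) (fun g => σ.Sm_Alg (χ.ad_Sm σ k (σ.W_Sm g)))
    (by simp [ad]) (fun _ _ h l => by rw [ad_add]; exact add_mem h l)
    (fun c _ h => by rw [ad_smul]; exact SMulMemClass.smul_mem _ h)
    (σ.Alg_closed.preimage (f := χ.ad k) (by unfold ad; fun_prop)) a h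

/-- the dual action -/
noncomputable def act (σ : Bi G) : K →* (σ.Alg ≃⋆ₐ[ℂ] σ.Alg) where
  toFun k :=
    { toFun := fun a => ⟨χ.ad k a.1, χ.ad_Alg σ k a.2⟩
      invFun := fun a => ⟨χ.ad k⁻¹ a.1, χ.ad_Alg σ _ a.2⟩
      left_inv := fun a => Subtype.ext (by simp [ad_ad, ad_one])
      right_inv := fun a => Subtype.ext (by simp [ad_ad, ad_one])
      map_mul' := fun a b => Subtype.ext (χ.ad_mul k a.1 b.1)
      map_add' := fun a b => Subtype.ext (χ.ad_add k a.1 b.1)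
      map_star' := fun a => Subtype.ext (χ.ad_star k a.1)
      map_smul' := fun c a => Subtype.ext (χ.ad_smul k c a.1) }
  map_one' := by ext1 a; exact Subtype.ext (χ.ad_one a.1)
  map_mul' k l := by ext1 a; exact Subtype.ext (χ.ad_ad k l a.1).symm

lemma act_coe (σ : Bi G) (k : K) (a : σ.Alg) : (χ.act σ k a).1 = χ.ad k a.1 := rfl

end Ch

end Pool.Agent.H.MP_7f0ddb_an
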