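import Pool.Agent.H.MP_7f0ddb_an.B

set_option autoImplicit false

namespace Pool.Agent.H.MP_7f0ddb_an

open scoped ComplexConjugate

section
variable {I J : Type}

lemma sl_mem (f : L2 (I × J)) (i : I) : Memℓp (fun j => f (i, j)) 2 :=
  memℓp_gen' (C := ‖f‖ ^ (2 : ENNReal).toReal) fun t => by
    refine le_trans ?_ (lp.sum_rpow_le_norm_rpow (by simp) f
      (t.map ⟨fun j => (i, j), fun _ _ h => (Prod.mk.inj h).2⟩))
    rw [Finset.sum_map]; exact le_rfl

/-- slices -/
noncomputable def sl (f : L2 (I × J)) (i : I) : L2 J := ⟨fun j => f (i, j), sl_mem f i⟩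

lemma sl_apply (f : L2 (I × J)) (i : I) (j : J) : sl f i j = f (i, j) := rfl

lemma sl_sum (f : L2 (I × J)) (t : Finset I) :
    ∑ i ∈ t, ‖sl f i‖ ^ (2 : ENNReal).toReal ≤ ‖f‖ ^ (2 : ENNReal).toReal :=
  sum_le_hasSum t (fun _ _ => by positivity) ((lp.hasSum_norm (by simp) f).prod_fiberwise
    fun i => lp.hasSum_norm (by simp) (sl f i))

lemma R_sum (b : Op J) (f : L2 (I × J)) (t : Finset (I × J)) :
    ∑ x ∈ t, ‖b (sl f x.1) x.2‖ ^ (2 : ENNReal).toReal ≤ (‖b‖ * ‖f‖) ^ (2 : ENNReal).toReal := by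
  classical
  calc _ ≤ ∑ x ∈ t.image Prod.fst ×ˢ t.image Prod.snd,
        ‖b (sl f x.1) x.2‖ ^ (2 : ENNReal).toReal :=
        Finset.sum_le_sum_of_subset_of_nonneg Finset.subset_product fun _ _ _ => by positivity
    _ ≤ ∑ i ∈ t.image Prod.fst, ‖b‖ ^ (2 : ENNReal).toReal * ‖sl f i‖ ^ (2 : ENNReal).toReal := by
        rw [Finset.sum_product]
        refine Finset.sum_le_sum fun i _ => ?_
        refine (lp.sum_rpow_le_norm_rpow (by simp) (b (sl f i)) _).trans ?_
        rw [← Real.mul_rpow (norm_nonneg _) (norm_nonneg _)]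
        exact Real.rpow_le_rpow (norm_nonneg _) (b.le_opNorm _) (by simp)
    _ ≤ _ := by
        rw [← Finset.mul_sum, Real.mul_rpow (norm_nonneg _) (norm_nonneg _)]
        exact mul_le_mul_of_nonneg_left (sl_sum f _) (by positivity)

/-- the operator 1 tensor b -/
noncomputable def Rt (I : Type) (b : Op J) : Op (I × J) :=
  LinearMap.mkContinuous
    { toFun := fun f => ⟨fun x => b (sl f x.1) x.2, memℓp_gen' (R_sum b f)⟩
      map_add' := fun f h => by
        ext x
        change b (sl (f + h) x.1) x.2 = b (sl f x.1) x.2 + b (sl h x.1) x.2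
        rw [show sl (f + h) x.1 = sl f x.1 + sl h x.1 from rfl, map_add]; rfl
      map_smul' := fun a f => by
        ext x
        change b (sl (a • f) x.1) x.2 = a • b (sl f x.1) x.2
        rw [show sl (a • f) x.1 = a • sl f x.1 from rfl, map_smul]; rfl } ‖b‖ fun f =>
    lp.norm_le_of_forall_sum_le (by simp) (by positivity) (R_sum b f)

lemma Rt_apply (b : Op J) (f : L2 (I × J)) (x : I × J) : Rt I b f x = b (sl f x.1) x.2 := rfl

lemma Rt_norm (b : Op J) : ‖Rt I b‖ ≤ ‖b‖ := LinearMap.mkContinuous_norm_le _ (norm_nonneg _) _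

/-- the flip -/
noncomputable def fl (I J : Type) : L2 (J × I) →L[ℂ] L2 (I × J) :=
  WP (fun _ => 1) (fun _ => norm_one) (Equiv.prodComm I J)

lemma fl_apply (f : L2 (J × I)) (x : I × J) : fl I J f x = f x.swap := one_mul _

/-- the operator a tensor b -/
noncomputable def tp (a : Op I) (b : Op J) : Op (I × J) :=
  (fl I J).comp ((Rt J a).comp ((fl J I).comp (Rt I b)))

lemma tp_norm (a : Op I) (b : Op J) : ‖tp a b‖ ≤ ‖a‖ * ‖b‖ := by
  have h1 : ‖fl I J‖ ≤ 1 := WP_norm _ _ _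
  have h2 : ‖fl J I‖ ≤ 1 := WP_norm _ _ _
  have h3 := Rt_norm (I := J) a
  have h4 := Rt_norm (I := I) b
  refine (ContinuousLinearMap.opNorm_comp_le _ _).trans ?_
  calc _ ≤ 1 * (‖a‖ * (1 * ‖b‖)) := by
        gcongr
        refine (ContinuousLinearMap.opNorm_comp_le _ _).trans ?_
        gcongr
        exact (ContinuousLinearMap.opNorm_comp_le _ _).trans (by gcongr)
    _ = _ := by ring

lemma tp_en (a : Op I) (b : Op J) (x y : I × J) :
    tp a b (dl x) y = a (dl x.1) y.1 * b (dl x.2) y.2 := by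
  have : sl (fl J I (Rt I b (dl x))) y.2 = b (dl x.2) y.2 • dl x.1 := by
    ext i
    rw [sl_apply, fl_apply, Rt_apply, lp.coeFn_smul, Pi.smul_apply, dl_apply]
    simp only [Prod.swap_prod_mk]
    split_ifs with e
    · have : sl (dl x) i = dl x.2 := by
        ext j; rw [sl_apply, dl_apply, dl_apply]
        by_cases e2 : j = x.2
        · rw [if_pos e2, if_pos (Prod.ext e e2)]
        · rw [if_neg e2, if_neg fun h => e2 (congrArg Prod.snd h)]
      simp [this]
    · have : sl (dl x) i = 0 := by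
        ext j; rw [sl_apply, dl_apply]; simp [Prod.ext_iff, e]
      simp [this]
  simp only [tp, ContinuousLinearMap.comp_apply]
  rw [fl_apply, Rt_apply, Prod.fst_swap, this, map_smul, lp.coeFn_smul, Pi.smul_apply,
    smul_eq_mul, mul_comm, Prod.snd_swap]

/-- the tensor product as a continuous bilinear map -/
noncomputable def tL (I J : Type) : Op I →L[ℂ] Op J →L[ℂ] Op (I × J) :=
  LinearMap.mkContinuous₂ (LinearMap.mk₂ ℂ tp
    (fun a a' b => ext_en fun x y => by simp [tp_en, add_mul])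
    (fun c a b => ext_en fun x y => by simp [tp_en, mul_assoc])
    (fun a b b' => ext_en fun x y => by simp [tp_en, mul_add])
    (fun c a b => ext_en fun x y => by simp [tp_en, mul_left_comm])) 1
    fun a b => by simpa using tp_norm a b

lemma tL_apply (a : Op I) (b : Op J) : tL I J a b = tp a b := rfl

end

section
variable {G H : Type} [AddCommGroup G] [AddCommGroup H]

/-- product of bicharacters -/
def Bi.pr (σ : Bi G) (ρ : Bi H) : Bi (G × H) where
  s a b := σ.s a.1 b.1 * ρ.s a.2 b.2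
  hn a b := by rw [norm_mul, σ.hn, ρ.hn, one_mul]
  hl a b c := by simp only [Prod.fst_add, Prod.snd_add, σ.hl, ρ.hl]; ring
  hr a b c := by simp only [Prod.fst_add, Prod.snd_add, σ.hr, ρ.hr]; ring

lemma tp_W (σ : Bi G) (ρ : Bi H) (g : G) (h : H) : tp (σ.W g) (ρ.W h) = (σ.pr ρ).W (g, h) := by
  refine ext_en fun x y => ?_
  rw [tp_en, Bi.W_dl, Bi.W_dl, Bi.W_dl]
  simp only [lp.coeFn_smul, Pi.smul_apply, dl_apply, smul_eq_mul, Bi.pr]
  by_cases e : y = (g, h) + x
  · simp [e]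
  · rw [if_neg e]
    by_cases e1 : y.1 = g + x.1
    · rw [if_neg (fun e2 : y.2 = h + x.2 => e (Prod.ext e1 e2))]; simp
    · rw [if_neg e1]; simp

lemma tp_Alg (σ : Bi G) (ρ : Bi H) {a : Op G} {b : Op H} (ha : a ∈ σ.Alg) (hb : b ∈ ρ.Alg) :
    tp a b ∈ (σ.pr ρ).Alg := by
  rw [← tL_apply]
  refine σ.Alg_ind (P := fun a => tL G H a b ∈ (σ.pr ρ).Alg) (fun g => ?_) (by simp)
    (fun _ _ h k => by rw [map_add]; exact add_mem h k)
    (fun c _ h => by rw [map_smul]; exact SMulMemClass.smul_mem c h)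
    ((σ.pr ρ).Alg_closed.preimage (f := fun a => tL G H a b) (by fun_prop)) a ha
  exact ρ.Alg_ind (P := fun b => tL G H (σ.W g) b ∈ (σ.pr ρ).Alg)
    (fun h => by rw [tL_apply, tp_W]; exact Bi.W_Alg _ _) (by simp)
    (fun _ _ h k => by rw [map_add]; exact add_mem h k)
    (fun c _ h => by rw [map_smul]; exact SMulMemClass.smul_mem c h)
    ((σ.pr ρ).Alg_closed.preimage (f := fun b => tL G H (σ.W g) b) (by fun_prop)) b hb

/-- elementary tensors -/
noncomputable def tt (σ : Bi G) (ρ : Bi H) (a : σ.Alg) (b : ρ.Alg) : (σ.pr ρ).Alg :=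
  ⟨tp a.1 b.1, tp_Alg σ ρ a.2 b.2⟩

lemma tt_span (σ : Bi G) (ρ : Bi H) : ((σ.pr ρ).Alg : Set (Op (G × H))) =
    closure (Submodule.span ℂ {x | ∃ a b, x = (tt σ ρ a b).1} : Set (Op (G × H))) := by
  refine Set.Subset.antisymm (closure_mono (Submodule.span_mono ?_))
    (closure_minimal ?_ (σ.pr ρ).Alg_closed)
  · rintro _ ⟨⟨g, h⟩, rfl⟩
    exact ⟨⟨_, σ.W_Alg g⟩, ⟨_, ρ.W_Alg h⟩, (tp_W σ ρ g h).symm⟩
  · intro x hx
    induction hx using Submodule.span_induction with
    | mem x hx => obtain ⟨a, b, rfl⟩ := hx; exact (tt σ ρ a b).2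
    | zero => exact zero_mem _
    | add x y _ _ h k => exact add_mem h k
    | smul c x _ h => exact SMulMemClass.smul_mem c h

variable {K L : Type} [CommGroup K] [CommGroup L]

/-- product of character groups -/
def Ch.pr (χ : Ch K G) (ψ : Ch L H) : Ch (K × L) (G × H) where
  c k g := χ.c k.1 g.1 * ψ.c k.2 g.2
  hn k g := by rw [norm_mul, χ.hn, ψ.hn, one_mul]
  h1 g := by simp [χ.h1, ψ.h1]
  hl k l g := by simp only [Prod.fst_mul, Prod.snd_mul, χ.hl, ψ.hl]; ring
  hr k g h := by simp only [Prod.fst_add, Prod.snd_add, χ.hr, ψ.hr]; ring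

lemma act_tt (σ : Bi G) (ρ : Bi H) (χ : Ch K G) (ψ : Ch L H) (k : K) (l : L) (a : σ.Alg)
    (b : ρ.Alg) : (χ.pr ψ).act (σ.pr ρ) (k, l) (tt σ ρ a b) =
      tt σ ρ (χ.act σ k a) (ψ.act ρ l b) := by
  refine Subtype.ext (ext_en fun x y => ?_)
  simp only [Ch.act_coe, tt, Ch.ad_en, tp_en, Ch.pr, Prod.fst_inv, Prod.snd_inv]
  ring

end

end Pool.Agent.H.MP_7f0ddb_an
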