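import Pool.Agent.H.MP_7f0ddb_an.C

set_option autoImplicit false

namespace Pool.Agent.H.MP_7f0ddb_an

open scoped ComplexConjugate
open Filter

/-- roots of unity of order a power of three -/
def P3 : Subgroup ℂˣ where
  carrier := {z | ∃ k : ℕ, z ^ 3 ^ k = 1}
  mul_mem' := by
    rintro a b ⟨k, h⟩ ⟨l, h'⟩
    refine ⟨k + l, ?_⟩
    rw [mul_pow, pow_add, pow_mul, h, one_pow, mul_comm (3 ^ k), pow_mul, h', one_pow, one_mul]
  one_mem' := ⟨0, one_pow _⟩
  inv_mem' := by
    rintro a ⟨k, h⟩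
    exact ⟨k, by rw [inv_pow, h, inv_one]⟩

abbrev PP := Additive P3

/-- value of a root of unity -/
def ev (x : PP) : ℂ := ((Additive.toMul x : P3) : ℂˣ)

lemma ev_add (x y : PP) : ev (x + y) = ev x * ev y := by simp [ev]

lemma ev_zero : ev 0 = 1 := by simp [ev]

lemma ev_tor (x : PP) (n : ℕ) : n • x = 0 ↔ ev x ^ n = 1 := by
  rw [ev, ← Units.val_pow_eq_pow_val, Units.val_eq_one, ← Subgroup.coe_pow, OneMemClass.coe_eq_one,
    ← toMul_nsmul, toMul_eq_one]

lemma tor_ev (x : PP) : ∀ᶠ k in atTop, 3 ^ k • x = 0 := by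
  obtain ⟨k, h⟩ := (Additive.toMul x).2
  have h' : 3 ^ k • x = 0 := by
    rw [ev_tor, ev, ← Units.val_pow_eq_pow_val, h, Units.val_one]
  filter_upwards [eventually_ge_atTop k] with l hl
  obtain ⟨m, rfl⟩ := Nat.exists_eq_add_of_le hl
  rw [pow_add, mul_smul, smul_comm, h', smul_zero]

lemma ev_norm (x : PP) : ‖ev x‖ = 1 := by
  obtain ⟨k, h⟩ := (tor_ev x).exists
  exact Complex.norm_eq_one_of_pow_eq_one ((ev_tor _ _).1 h) (by positivity)

abbrev GA := ℤ × PP

/-- the Bunce-Deddens bicharacter -/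
noncomputable def sA : Bi GA where
  s a b := ev a.2 ^ b.1
  hn a b := by rw [norm_zpow, ev_norm, one_zpow]
  hl a b c := by rw [Prod.snd_add, ev_add, mul_zpow]
  hr a b c := by
    rw [Prod.fst_add, zpow_add₀ fun h => by simpa [h] using ev_norm a.2]

lemma un (k : ℤˣ) : ‖((k : ℤ) : ℂ)‖ = 1 := by
  rcases Int.units_eq_one_or k with rfl | rfl <;> simp

/-- the gauge character -/
noncomputable def cA : Ch ℤˣ GA where
  c k g := ((k : ℤ) : ℂ) ^ g.1
  hn k g := by rw [norm_zpow, un, one_zpow]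
  h1 g := by simp
  hl k l g := by simp [mul_zpow]
  hr k g h := by rw [Prod.fst_add, zpow_add₀ fun h => by simpa [h] using un k]

lemma ndA (g : GA) (hg : g ≠ 0) : ∃ h, sA.s h g ≠ sA.s g h := by
  by_cases e : g.2 = 0
  · have h1 : g.1 ≠ 0 := fun h => hg (Prod.ext h e)
    obtain ⟨k, hk⟩ := pow_unbounded_of_one_lt g.1.natAbs (by norm_num : 1 < 3)
    have hp := Complex.isPrimitiveRoot_exp (3 ^ k) (by positivity)
    have hu := hp.isUnit (by positivity)
    refine ⟨(0, Additive.ofMul ⟨hu.unit, k, Units.ext (by simpa using hp.pow_eq_one)⟩), ?_⟩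
    simp only [sA, e, ev_zero, zpow_zero, ev, toMul_ofMul, IsUnit.unit_spec]
    rw [Ne, hp.zpow_eq_one_iff_dvd, Int.natCast_dvd]
    exact fun h => absurd (Nat.le_of_dvd (Int.natAbs_pos.2 h1) h) (not_le.2 hk)
  · refine ⟨(1, 0), ?_⟩
    simp only [sA, ev_zero, one_zpow, zpow_one]
    exact fun h => e (by simpa using (ev_tor g.2 1).2 (by simpa using h.symm))

lemma sA_c {g : GA} {k : ℕ} (h : 3 ^ k • g.2 = 0) (r : ℤ) :
    sA.s g (r * (3 ^ k : ℕ), 0) = sA.s (r * (3 ^ k : ℕ), 0) g := by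
  simp only [sA, ev_zero, one_zpow]
  rw [mul_comm, zpow_mul, zpow_natCast, (ev_tor _ _).1 h, one_zpow]

lemma band {a : Op GA} (ha : a ∈ sA.Sm) : ∀ᶠ k in atTop,
    (∀ r : ℤ, Commute a (sA.W (r * (3 ^ k : ℕ), 0))) ∧
      ∃ R : ℕ, ∀ x y, a (dl x) y ≠ 0 → |y.1 - x.1| ≤ R ∧ 3 ^ k • (y.2 - x.2) = 0 := by
  refine sA.Sm_ind (P := fun a => ∀ᶠ k in atTop,
    (∀ r : ℤ, Commute a (sA.W (r * (3 ^ k : ℕ), 0))) ∧
      ∃ R : ℕ, ∀ x y, a (dl x) y ≠ 0 → |y.1 - x.1| ≤ R ∧ 3 ^ k • (y.2 - x.2) = 0)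
    (fun g => ?_) (Eventually.of_forall fun k => ⟨fun r => Commute.zero_left _, 0, by simp⟩)
    (fun a b h l => ?_) (fun c a h => ?_) a ha
  · filter_upwards [tor_ev g.2] with k hk
    refine ⟨fun r => sA.W_comm (sA_c hk r), g.1.natAbs, fun x y h => ?_⟩
    have : y = g + x := by
      by_contra e
      exact h (by simp [Bi.W_dl, dl_apply, e])
    simp [this, hk]
  · filter_upwards [h, l] with k ⟨h1, R, h2⟩ ⟨l1, S, l2⟩
    refine ⟨fun r => (h1 r).add_left (l1 r), R + S, fun x y e => ?_⟩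
    by_cases e1 : a (dl x) y = 0
    · have := l2 x y (by simpa [e1] using e)
      exact ⟨by push_cast; linarith [this.1], this.2⟩
    · have := h2 x y e1
      exact ⟨by push_cast; linarith [this.1], this.2⟩
  · filter_upwards [h] with k ⟨h1, R, h2⟩
    exact ⟨fun r => (h1 r).smul_left c, R, fun x y e => h2 x y fun e1 => e (by simp [e1])⟩

/-- fundamental domain -/
abbrev Ph (k : ℕ) := Fin (3 ^ k) × {x : PP // 3 ^ k • x = 0}

lemma card_tor (k : ℕ) : Nat.card {x : PP // 3 ^ k • x = 0} = 3 ^ k := by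
  have : NeZero (3 ^ k) := ⟨by positivity⟩
  refine Eq.trans ?_ (Complex.card_rootsOfUnity (3 ^ k))
  refine Nat.card_congr (Equiv.ofBijective (fun x => ⟨(Additive.toMul x.1 : P3), ?_⟩) ⟨?_, ?_⟩)
  · rw [mem_rootsOfUnity']; exact (ev_tor _ _).1 x.2
  · intro x y h
    exact Subtype.ext (Additive.toMul.injective (Subtype.ext (Subtype.mk.inj h)))
  · rintro ⟨z, hz⟩
    exact ⟨⟨Additive.ofMul ⟨z, k, (mem_rootsOfUnity _ _).1 hz⟩,
      (ev_tor _ _).2 ((mem_rootsOfUnity' _ _).1 hz)⟩, rfl⟩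

noncomputable instance (k : ℕ) : Fintype {x : PP // 3 ^ k • x = 0} :=
  @Fintype.ofFinite _ (Nat.finite_of_card_ne_zero (by rw [card_tor]; positivity))

lemma card_odd (k : ℕ) : Odd (Fintype.card (Ph k)) := by
  rw [Fintype.card_prod, Fintype.card_fin, Fintype.card_eq_nat_card, card_tor]
  exact (Odd.pow (by decide)).mul (Odd.pow (by decide))

section
variable {k : ℕ}

/-- parametrisation of the torsion strip -/
def pt (x : Ph k) (q : ℤ) : GA := ((x.1 : ℕ) + q * (3 ^ k : ℕ), x.2.1)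

lemma pt_inj {x y : Ph k} {q r : ℤ} (h : pt x q = pt y r) : x = y ∧ q = r := by
  have h1 := congrArg Prod.fst h
  have h2 := congrArg Prod.snd h
  simp only [pt] at h1 h2
  have hN : ((3 ^ k : ℕ) : ℤ) ≠ 0 := by positivity
  have hd : ∀ (z : Ph k) (s : ℤ), (((z.1 : ℕ) : ℤ) + s * (3 ^ k : ℕ)) / (3 ^ k : ℕ) = s :=
    fun z s => by
      rw [Int.add_mul_ediv_right _ _ hN, Int.ediv_eq_zero_of_lt (by positivity)
        (by exact_mod_cast z.1.2), zero_add]
  have hq : q = r := by rw [← hd x q, h1, hd]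
  subst hq
  exact ⟨Prod.ext (Fin.ext (by exact_mod_cast add_right_cancel h1)) (Subtype.ext h2), rfl⟩

lemma pt_surj {g : GA} (h : 3 ^ k • g.2 = 0) : ∃ (x : Ph k) (q : ℤ), g = pt x q := by
  have hN : (0 : ℤ) < (3 ^ k : ℕ) := by positivity
  have h0 := Int.emod_nonneg g.1 hN.ne'
  have h1 := Int.emod_lt_of_pos g.1 hN
  refine ⟨(⟨(g.1 % (3 ^ k : ℕ)).toNat, by omega⟩, ⟨g.2, h⟩), g.1 / (3 ^ k : ℕ), Prod.ext ?_ rfl⟩
  simp only [pt]
  rw [Int.toNat_of_nonneg h0, Int.emod_add_ediv_mul]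

/-- central shifts -/
noncomputable def V (k : ℕ) (r : ℤ) : Op GA := sA.W (r * (3 ^ k : ℕ), 0)

lemma V_pt (r : ℤ) (f : L2 GA) (x : Ph k) (q : ℤ) : V k r f (pt x q) = f (pt x (q - r)) := by
  rw [V, Bi.W_apply]
  simp only [sA, ev_zero, one_zpow, one_mul, pt, Prod.mk_sub_mk, sub_zero]
  congr 2; ring

lemma V_dl (r : ℤ) (x : Ph k) (q : ℤ) : V k r (dl (pt x q)) = dl (pt x (q + r)) := by
  rw [V, Bi.W_dl]
  simp only [sA, ev_zero, one_zpow, one_smul, pt, Prod.mk_add_mk, zero_add]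
  congr 2; ring

lemma V_mul (r q : ℤ) : V k r * V k q = V k (r + q) := by
  rw [V, V, V, Bi.W_mul]
  simp only [sA, ev_zero, one_zpow, one_smul, Prod.mk_add_mk, zero_add, add_mul]

lemma V_zero : V k 0 = 1 := by
  rw [V, zero_mul]; exact sA.W_zero

lemma ker {a : Op GA} (hc : ∀ r, Commute a (V k r)) (hb : ∀ f, ‖f‖ ≤ 2 * ‖a f‖) (Q : Finset ℤ)
    (hQ : ∀ y : Ph k, a (dl (pt y 0)) =
      ∑ q ∈ Q, ∑ x : Ph k, a (dl (pt y 0)) (pt x q) • dl (pt x q))
    {z : ℂ} (hz : ‖z‖ = 1) (ξ : Ph k → ℂ)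
    (h : ∀ x : Ph k, ∑ y, (∑ q ∈ Q, z ^ q * a (dl (pt y 0)) (pt x q)) * ξ y = 0) : ξ = 0 := by
  classical
  have hz0 : z ≠ 0 := fun e => by simpa [e] using hz
  let U : ℤ → Op GA := fun r => z ^ (-r) • V k r
  have hU : ∀ r q f, U r (U q f) = U (r + q) f := fun r q f => by
    simp only [U, ContinuousLinearMap.smul_apply, map_smul, smul_smul]
    rw [← ContinuousLinearMap.mul_apply, V_mul, neg_add, zpow_add₀ hz0, mul_comm]
  have hU0 : ∀ f, U 0 f = f := fun f => by simp [U, V_zero]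
  have hUn : ∀ r f, ‖U r f‖ ≤ ‖f‖ := fun r f => by
    simp only [U, ContinuousLinearMap.smul_apply, norm_smul, norm_zpow, hz, one_zpow, one_mul]
    exact ((V k r).le_opNorm f).trans (mul_le_of_le_one_left (norm_nonneg _) (sA.W_norm _))
  let S : ℕ → Op GA := fun K => ∑ r ∈ Finset.range K, U r
  let B : Submodule ℂ (L2 GA) :=
    { carrier := {f | ∃ C, ∀ K, ‖S K f‖ ≤ C}
      add_mem' := fun ⟨C, h⟩ ⟨D, l⟩ => ⟨C + D, fun K => by
        rw [map_add]; exact (norm_add_le _ _).trans (add_le_add (h K) (l K))⟩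
      zero_mem' := ⟨0, by simp⟩
      smul_mem' := fun c f ⟨C, h⟩ => ⟨‖c‖ * C, fun K => by
        rw [map_smul, norm_smul]; gcongr; exact h K⟩ }
  have h1 : ∀ f, U 1 f - f ∈ B := fun f => ⟨2 * ‖f‖, fun K => by
    have : S K (U 1 f - f) = U K f - f := by
      have := Finset.sum_range_sub (fun r : ℕ => U r f) K
      simp only [Nat.cast_zero, hU0, Nat.cast_add, Nat.cast_one, Finset.sum_sub_distrib] at this
      simp only [S, ContinuousLinearMap.sum_apply, map_sub, hU, Finset.sum_sub_distrib, this]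
    rw [this]
    linarith [norm_sub_le (U K f) f, hUn K f]⟩
  have h2 : ∀ q f, U q f - f ∈ B := fun q f => by
    induction q using Int.induction_on with
    | zero => simp [hU0]
    | succ n ih =>
      have := add_mem (h1 (U n f)) ih
      rwa [hU, sub_add_sub_cancel, add_comm] at this
    | pred n ih =>
      have := sub_mem ih (h1 (U (-n - 1) f))
      rwa [hU, show 1 + (-(n : ℤ) - 1) = -n by ring, sub_sub_sub_cancel_left] at this
  let f0 : L2 GA := ∑ y, ξ y • dl (pt y 0)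
  have h3 : a f0 ∈ B := by
    have e : ∀ (x : Ph k) q, dl (pt x q) = z ^ q • U q (dl (pt x 0)) := fun x q => by
      simp only [U, ContinuousLinearMap.smul_apply, smul_smul, V_dl, zero_add]
      rw [← zpow_add₀ hz0]; simp
    have e1 : a f0 = ∑ y, ∑ q ∈ Q, ∑ x : Ph k, (z ^ q * a (dl (pt y 0)) (pt x q) * ξ y) •
        U q (dl (pt x 0)) := by
      rw [map_sum]
      refine Finset.sum_congr rfl fun y _ => ?_
      rw [map_smul]
      refine (congrArg (ξ y • ·) (hQ y)).trans ?_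
      simp only [Finset.smul_sum]
      refine Finset.sum_congr rfl fun q _ => Finset.sum_congr rfl fun x _ => ?_
      generalize a (dl (pt y 0)) (pt x q) = c
      rw [e x q, smul_smul, smul_smul]
      congr 1; ring
    have e2 : ∑ y, ∑ q ∈ Q, ∑ x : Ph k, (z ^ q * a (dl (pt y 0)) (pt x q) * ξ y) •
        dl (pt x 0) = 0 := by
      rw [Finset.sum_congr rfl fun y _ => Finset.sum_comm, Finset.sum_comm]
      refine Finset.sum_eq_zero fun x _ => ?_
      have := congrArg (· • dl (pt x 0)) (h x)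
      simpa only [Finset.sum_mul, Finset.sum_smul, zero_smul] using this
    rw [← sub_zero (a f0), ← e2, e1]
    simp only [← Finset.sum_sub_distrib, ← smul_sub]
    exact B.sum_mem fun y _ => B.sum_mem fun q _ => B.sum_mem fun x _ => B.smul_mem _ (h2 _ _)
  obtain ⟨C, hC⟩ := h3
  have h4 : ∀ K, ‖S K f0‖ ≤ 2 * C := fun K => by
    refine (hb _).trans ?_
    have : Commute a (S K) := Commute.sum_right _ _ _ fun r _ => (hc r).smul_right _
    rw [← ContinuousLinearMap.mul_apply, this.eq, ContinuousLinearMap.mul_apply]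
    linarith [hC K]
  funext x
  have h5 : ∀ q, f0 (pt x q) = if q = 0 then ξ x else 0 := fun q => by
    simp only [f0, lp.coeFn_sum, Finset.sum_apply, lp.coeFn_smul, Pi.smul_apply, dl_apply,
      smul_eq_mul]
    rw [Finset.sum_eq_single x (fun y _ e => by rw [if_neg fun e' => e (pt_inj e').1.symm]; simp)
      (by simp)]
    split_ifs with e1 e2 e2
    · simp
    · exact absurd (pt_inj e1).2 e2
    · exact absurd (by rw [e2]) e1
    · simp
  have h6 : ∀ K : ℕ, K * ‖ξ x‖ ^ 2 ≤ (2 * C) ^ 2 := fun K => by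
    have := lp.sum_rpow_le_norm_rpow (by simp) (S K f0) ((Finset.range K).map
      ⟨fun r : ℕ => pt x r, fun r s e => by exact_mod_cast (pt_inj e).2⟩)
    simp only [Finset.sum_map, Function.Embedding.coeFn_mk, ENNReal.toReal_ofNat,
      Real.rpow_ofNat] at this
    rw [Finset.sum_congr rfl (g := fun _ => ‖ξ x‖ ^ 2) fun r hr => ?_] at this
    · simp only [Finset.sum_const, Finset.card_range, nsmul_eq_mul] at this
      exact this.trans (pow_le_pow_left₀ (norm_nonneg _) (h4 K) 2)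
    · simp only [S, U, ContinuousLinearMap.sum_apply, lp.coeFn_sum, Finset.sum_apply,
        ContinuousLinearMap.smul_apply, lp.coeFn_smul, Pi.smul_apply, V_pt, h5, smul_eq_mul]
      rw [Finset.sum_eq_single r (fun s _ e => by
        rw [if_neg fun e' => e (by omega)]; simp) (fun e => absurd hr e)]
      simp [hz]
  by_contra e
  have hp : 0 < ‖ξ x‖ ^ 2 := pow_pos (norm_pos_iff.2 e) 2
  obtain ⟨K, hK⟩ := exists_nat_gt ((2 * C) ^ 2 / ‖ξ x‖ ^ 2)
  rw [div_lt_iff₀ hp] at hK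
  exact absurd (h6 K) (not_le.2 hK)

end

open Matrix hiding one_zpow zpow_mul zpow_neg inv_zpow in
theorem core {a : Op GA} (ha : a ∈ sA.Sm) (hs : star a = a) (hα : cA.ad (-1) a = -a)
    (hb : ∀ f, ‖f‖ ≤ 2 * ‖a f‖) : False := by
  classical
  obtain ⟨k, hc, R, hR⟩ := (band ha).exists
  let A : Ph k → ℤ → Ph k → ℂ := fun x q y => a (dl (pt y 0)) (pt x q)
  have hsh : ∀ x y q r, a (dl (pt y r)) (pt x (q + r)) = A x q y := fun x y q r => by
    have := congrArg (fun T : Op GA => T (dl (pt y 0)) (pt x (q + r))) (show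
      Commute a (V k r) from hc r).eq
    simpa [V_dl, V_pt] using this
  have hv : ∀ x q y, q ∉ Finset.Icc (-R : ℤ) R → A x q y = 0 := fun x q y hq => by
    by_contra e
    have := abs_le.1 (hR _ _ e).1
    simp only [pt, zero_mul, add_zero] at this
    have h1 : ((x.1 : ℕ) : ℤ) < (3 ^ k : ℕ) := by exact_mod_cast x.1.2
    have h2 : ((y.1 : ℕ) : ℤ) < (3 ^ k : ℕ) := by exact_mod_cast y.1.2
    have h3 : (0 : ℤ) ≤ (x.1 : ℕ) := by positivity
    have h4 : (0 : ℤ) ≤ (y.1 : ℕ) := by positivity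
    have h5 : (0 : ℤ) ≤ R := by positivity
    rw [Finset.mem_Icc, not_and_or, not_le, not_le] at hq
    rcases hq with hq | hq <;> nlinarith [this.1, this.2]
  have hQ : ∀ y : Ph k, a (dl (pt y 0)) = ∑ q ∈ Finset.Icc (-R : ℤ) R, ∑ x : Ph k,
      a (dl (pt y 0)) (pt x q) • dl (pt x q) := fun y => by
    ext g
    simp only [lp.coeFn_sum, Finset.sum_apply, lp.coeFn_smul, Pi.smul_apply, dl_apply,
      smul_eq_mul]
    by_cases e : 3 ^ k • g.2 = 0
    · obtain ⟨x, q, rfl⟩ := pt_surj e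
      rw [Finset.sum_eq_single q (fun r _ e => Finset.sum_eq_zero fun z _ => by
        rw [if_neg fun e' => e (pt_inj e').2.symm, mul_zero]) (fun e => ?_),
        Finset.sum_eq_single x (fun z _ e => by
          rw [if_neg fun e' => e (pt_inj e').1.symm, mul_zero]) (by simp)]
      · simp
      · exact Finset.sum_eq_zero fun z _ => by rw [show a _ _ = 0 from hv z q y e, zero_mul]
    · rw [Finset.sum_eq_zero fun r _ => Finset.sum_eq_zero fun z _ => by
        rw [if_neg fun e' => e (by rw [e']; exact z.2.2), mul_zero]]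
      by_contra e'
      have := (hR _ _ e').2
      rw [nsmul_sub, show 3 ^ k • (pt y 0).2 = 0 from y.2.2, sub_zero] at this
      exact e this
  let T : ℂ → Matrix (Ph k) (Ph k) ℂ := fun z => Matrix.of fun x y =>
    ∑ q ∈ Finset.Icc (-R : ℤ) R, z ^ q * A x q y
  have hH : ∀ z : ℂ, ‖z‖ = 1 → conjTranspose (T z) = T z := fun z hz => by
    ext x y
    simp only [T, conjTranspose_apply, of_apply, star_sum, star_mul', star_zpow₀]
    refine Finset.sum_bij' (fun q _ => -q) (fun q _ => -q) (by simp; omega) (by simp; omega)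
      (by simp) (by simp) fun q _ => ?_
    have e := en_star a (pt y q) (pt x 0)
    rw [hs] at e
    rw [← hsh x y (-q) q, neg_add_cancel, e, zpow_neg, ← inv_zpow, Complex.inv_eq_conj hz]
    rfl
  let D : Matrix (Ph k) (Ph k) ℂ := diagonal fun x => (-1) ^ (x.1 : ℕ)
  have hD : ∀ z, T (-z) = -(D * T z * D) := fun z => by
    ext x y
    simp only [T, D, of_apply, Matrix.neg_apply, mul_diagonal, diagonal_mul, Finset.mul_sum,
      Finset.sum_mul, ← Finset.sum_neg_distrib]
    refine Finset.sum_congr rfl fun q _ => ?_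
    have := congrArg (fun T : Op GA => T (dl (pt y 0)) (pt x q)) hα
    simp only [Ch.ad_en, cA, pt, inv_neg, inv_one, Units.val_neg, Units.val_one, Int.cast_neg,
      Int.cast_one, zero_mul, add_zero, ContinuousLinearMap.neg_apply, lp.coeFn_neg,
      Pi.neg_apply] at this
    have ho : Odd (3 ^ k) := Odd.pow (by decide)
    have hp : (-1 : ℂ) ^ (q * ((3 ^ k : ℕ) : ℤ)) = (-1) ^ q := by
      rw [mul_comm q, zpow_mul, zpow_natCast, ho.neg_one_pow]
    rw [zpow_add₀ (by norm_num), hp, zpow_natCast, zpow_natCast] at this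
    have h2 : ((-1 : ℂ) ^ q) * (-1) ^ q = 1 := by rw [← mul_zpow]; simp
    rw [neg_eq_neg_one_mul z, mul_zpow]
    simp only [A, pt, zero_mul, add_zero]
    linear_combination ((-1) ^ q * z ^ q) * this -
      (z ^ q * (-1) ^ (x.1 : ℕ) * (-1) ^ (y.1 : ℕ) * a (dl (((y.1 : ℕ) : ℤ), y.2.1))
        (((x.1 : ℕ) : ℤ) + q * (3 ^ k : ℕ), x.2.1)) * h2
  have hdet : ∀ z, (T (-z)).det = -(T z).det := fun z => by
    have : D.det * D.det = 1 := by
      rw [← det_mul, diagonal_mul_diagonal]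
      simp [← mul_pow]
    rw [hD, det_neg, (card_odd k).neg_one_pow, det_mul, det_mul]
    linear_combination (-(T z).det) * this
  let d : ℝ → ℝ := fun t => (T (Complex.exp (t * Complex.I))).det.re
  have hd : Continuous d := by
    refine Complex.continuous_re.comp (Continuous.matrix_det ?_)
    refine continuous_matrix fun x y => ?_
    simp only [T, of_apply]
    refine continuous_finset_sum _ fun q _ => ?_
    exact (Continuous.zpow₀ (by fun_prop) q fun t => Or.inl (Complex.exp_ne_zero _)).mul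
      continuous_const
  have hpi : d Real.pi = -d 0 := by
    simp only [d, Complex.exp_pi_mul_I, Complex.ofReal_zero, zero_mul, Complex.exp_zero, hdet,
      Complex.neg_re]
  obtain ⟨t, -, ht⟩ : (0 : ℝ) ∈ d '' Set.uIcc 0 Real.pi :=
    intermediate_value_uIcc hd.continuousOn (by
      rw [hpi, Set.mem_uIcc]
      rcases le_total 0 (d 0) with h | h
      · right; constructor <;> linarith
      · left; constructor <;> linarith)
  have hz := Complex.norm_exp_ofReal_mul_I t
  have h0 : (T (Complex.exp (t * Complex.I))).det = 0 := by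
    have := det_conjTranspose (T (Complex.exp (t * Complex.I)))
    rw [hH _ hz] at this
    exact Complex.ext ht (Complex.conj_eq_iff_im.1 this.symm)
  obtain ⟨ξ, h1, h2⟩ := exists_mulVec_eq_zero_iff.2 h0
  exact h1 (ker hc hb _ hQ hz ξ fun x => congrFun h2 x)

end Pool.Agent.H.MP_7f0ddb_an
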