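import Pool.Agent.H.MP_7f0ddb_an.D

set_option autoImplicit false

namespace Pool.Agent.H.MP_7f0ddb_an

open scoped ComplexConjugate
open Filter

/-- the Rokhlin property -/
def Rokhlin {K D : Type} [Group K] [Fintype K] [NormedRing D] [StarRing D] [Module ℂ D]
    (σ : K →* (D ≃⋆ₐ[ℂ] D)) : Prop :=
  ∀ (F : Finset D) (ε : ℝ), 0 < ε → ∃ e : K → D, (∀ k, IsStarProjection (e k)) ∧
    (∀ k l, k ≠ l → e k * e l = 0) ∧ (∀ k l, ‖σ k (e l) - e (k * l)‖ < ε) ∧
    (∀ k, ∀ a ∈ F, ‖e k * a - a * e k‖ < ε) ∧ ∑ k, e k = 1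

/-- stable finiteness -/
def StablyFinite (D : Type) [Ring D] [StarRing D] : Prop :=
  ∀ (n : ℕ) (v : Matrix (Fin n) (Fin n) D), star v * v = 1 → v * star v = 1

/-- D is the spatial tensor product of A and B, with elementary tensors t -/
def IsMinTensor {I J : Type} (A : StarSubalgebra ℂ (Op I)) (B : StarSubalgebra ℂ (Op J))
    (D : StarSubalgebra ℂ (Op (I × J))) (t : A → B → D) : Prop :=
  (∀ (a : A) (b : B) (x y : I × J),
    (t a b).1 (dl x) y = a.1 (dl x.1) y.1 * b.1 (dl x.2) y.2) ∧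
  (D : Set (Op (I × J))) =
    closure (Submodule.span ℂ {x | ∃ a b, x = (t a b).1} : Set (Op (I × J)))

theorem not_rok : ¬ Rokhlin (cA.act sA) := fun h => by
  obtain ⟨e, hp, -, h1, -, h2⟩ := h ∅ (1 / 8) (by norm_num)
  have hu : (Finset.univ : Finset ℤˣ) = {1, -1} := by decide
  rw [hu, Finset.sum_pair (by decide)] at h2
  have h2' : (e 1).1 + (e (-1)).1 = 1 := congrArg Subtype.val h2
  have h3 : ‖cA.ad (-1) (e 1).1 - (e (-1)).1‖ < 1 / 8 := by simpa [Ch.act_coe] using h1 (-1) 1
  have h4 : ‖cA.ad (-1) (e (-1)).1 - (e 1).1‖ < 1 / 8 := by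
    simpa [Ch.act_coe] using h1 (-1) (-1)
  have p1 : (e 1).1 * (e 1).1 = (e 1).1 := congrArg Subtype.val (hp 1).isIdempotentElem.eq
  have p2 : star (e 1).1 = (e 1).1 := congrArg Subtype.val (hp 1).isSelfAdjoint.star_eq
  have hm := sub_mem (e 1).2 (e (-1)).2
  generalize (e 1).1 = p at *
  generalize (e (-1)).1 = p' at *
  obtain rfl : p' = 1 - p := eq_sub_of_add_eq' h2'
  set s := p - (1 - p) with hs
  have s1 : star s = s := by simp [hs, p2]
  have s2 : s * s = 1 := by simp only [hs, sub_mul, mul_sub, p1, mul_one, one_mul]; abel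
  have s3 : ‖s‖ ≤ 1 := by
    have := CStarRing.norm_star_mul_self (x := s)
    rw [s1, s2] at this
    have h1 : ‖(1 : Op GA)‖ ≤ 1 := ContinuousLinearMap.norm_id_le
    nlinarith [norm_nonneg s]
  have asub : ∀ x y, cA.ad (-1) (x - y) = cA.ad (-1) x - cA.ad (-1) y := fun x y => by
    simp only [Ch.ad, mul_sub, sub_mul]
  have s4 : ‖s + cA.ad (-1) s‖ < 1 / 4 := by
    have : s + cA.ad (-1) s = (cA.ad (-1) p - (1 - p)) - (cA.ad (-1) (1 - p) - p) := by
      rw [hs, asub p]; abel
    rw [this]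
    linarith [norm_sub_le (cA.ad (-1) p - (1 - p)) (cA.ad (-1) (1 - p) - p)]
  obtain ⟨b, hb, h5⟩ := sA.approx hm (by norm_num : (0 : ℝ) < 1 / 8)
  have hb' := add_mem hb (sA.Sm_star hb)
  set c := b + star b with hc
  have c1 : star c = c := by rw [hc, star_add, star_star, add_comm]
  have c2 : ‖c - (s + s)‖ < 1 / 4 := by
    have : c - (s + s) = -((s - b) + star (s - b)) := by rw [hc, star_sub, s1]; abel
    rw [this, norm_neg]
    linarith [norm_add_le (s - b) (star (s - b)), norm_star (s - b)]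
  refine core (a := (4⁻¹ : ℂ) • (c - cA.ad (-1) c))
    (Submodule.smul_mem _ _ (sub_mem hb' (cA.ad_Sm sA _ hb'))) ?_ ?_ fun f => ?_
  · rw [star_smul, star_sub, ← Ch.ad_star, c1]; simp
  · rw [Ch.ad_smul, asub, Ch.ad_ad, ← smul_neg, neg_sub]; simp [Ch.ad_one]
  · have h6 : ‖(4⁻¹ : ℂ) • (c - cA.ad (-1) c) - s‖ ≤ 1 / 2 := by
      have : (4⁻¹ : ℂ) • (c - cA.ad (-1) c) - s = (4⁻¹ : ℂ) • ((c - (s + s)) -
          cA.ad (-1) (c - (s + s)) - ((s + cA.ad (-1) s) + (s + cA.ad (-1) s))) := by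
        rw [asub c, Ch.ad_add _ _ s s]; module
      rw [this, norm_smul]
      have k1 := cA.ad_norm (-1) (c - (s + s))
      have k2 := norm_sub_le (c - (s + s) - cA.ad (-1) (c - (s + s)))
        ((s + cA.ad (-1) s) + (s + cA.ad (-1) s))
      have k3 := norm_sub_le (c - (s + s)) (cA.ad (-1) (c - (s + s)))
      have k4 := norm_add_le (s + cA.ad (-1) s) (s + cA.ad (-1) s)
      simp only [norm_inv, Complex.norm_ofNat]
      linarith
    generalize (4⁻¹ : ℂ) • (c - cA.ad (-1) c) = a at h6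
    have h7 : ‖f‖ ≤ ‖s f‖ := by
      have := s.le_opNorm (s f)
      rw [← ContinuousLinearMap.mul_apply, s2, ContinuousLinearMap.one_apply] at this
      exact this.trans (mul_le_of_le_one_left (norm_nonneg _) s3)
    have h8 := (a - s).le_opNorm f
    have h9 := norm_sub_le (a f) ((a - s) f)
    rw [ContinuousLinearMap.sub_apply, sub_sub_cancel] at h9
    rw [ContinuousLinearMap.sub_apply] at h8
    nlinarith [norm_nonneg f]

abbrev F2 := ℕ →₀ ZMod 2

/-- the standard pairing -/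
noncomputable def pr (a b : F2) : ZMod 2 := Finsupp.linearCombination (ZMod 2) b a

lemma pr_l (a b c : F2) : pr (a + b) c = pr a c + pr b c := map_add _ _ _

lemma pr_r (a b c : F2) : pr a (b + c) = pr a b + pr a c := by
  simp [pr, Finsupp.linearCombination_apply, Finsupp.sum, mul_add, Finset.sum_add_distrib]

lemma pr_sl (n : ℕ) (b : F2) : pr (Finsupp.single n 1) b = b n := by simp [pr]

lemma pr_sr (n : ℕ) (a : F2) : pr a (Finsupp.single n 1) = a n := by
  induction a using Finsupp.induction_linear with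
  | zero => simp [pr]
  | add f g h k => rw [pr_l, h, k]; rfl
  | single m x => simp [pr, Finsupp.single_apply, eq_comm]

@[simp] lemma pr_zl (a : F2) : pr 0 a = 0 := by simp [pr]

@[simp] lemma pr_zr (a : F2) : pr a 0 = 0 := by simp [pr, Finsupp.linearCombination_apply]

abbrev GB := F2 × F2

/-- sign to a power mod two -/
def sg (k : ℤˣ) (x : ZMod 2) : ℂ := ((k ^ x : ℤˣ) : ℤ)

lemma sg_add (k : ℤˣ) (x y : ZMod 2) : sg k (x + y) = sg k x * sg k y := by simp [sg, uzpow_add]

@[simp] lemma sg_zero (k : ℤˣ) : sg k 0 = 1 := by simp [sg]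

@[simp] lemma sg_one (k : ℤˣ) : sg k 1 = (k : ℤ) := by simp [sg]

lemma sg_ne {x : ZMod 2} (h : x ≠ 0) : sg (-1) x ≠ 1 := by
  obtain rfl : x = 1 := by revert x; decide
  norm_num

/-- the CAR bicharacter -/
noncomputable def sB : Bi GB where
  s a b := sg (-1) (pr a.2 b.1)
  hn a b := un _
  hl a b c := by rw [Prod.snd_add, pr_l, sg_add]
  hr a b c := by rw [Prod.fst_add, pr_r, sg_add]

/-- the product type character -/
noncomputable def cB : Ch ℤˣ GB where
  c k g := sg k (Finsupp.linearCombination (ZMod 2) (fun n : ℕ => (n : ZMod 2)) g.1)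
  hn k g := un _
  h1 g := by simp [sg]
  hl k l g := by simp [sg, mul_uzpow]
  hr k g h := by rw [Prod.fst_add, map_add, sg_add]

lemma ndB (g : GB) (hg : g ≠ 0) : ∃ h, sB.s h g ≠ sB.s g h := by
  by_cases e : g.1 = 0
  · obtain ⟨n, hn⟩ := Finsupp.ne_iff.1 fun h : g.2 = 0 => hg (Prod.ext e h)
    exact ⟨(Finsupp.single n 1, 0), by simpa [sB, pr_sr] using (sg_ne hn).symm⟩
  · obtain ⟨n, hn⟩ := Finsupp.ne_iff.1 e
    exact ⟨(0, Finsupp.single n 1), by simpa [sB, pr_sl] using sg_ne hn⟩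

section
variable {R : Type} [Ring R] [StarRing R] [Algebra ℂ R] [StarModule ℂ R]

/-- spectral projection of an involution -/
noncomputable def hf (k : ℤˣ) (s : R) : R := (2⁻¹ : ℂ) • (1 + ((k : ℤ) : ℂ) • s)

lemma hf_mul {s : R} (h : s * s = 1) (k l : ℤˣ) :
    hf k s * hf l s = if k = l then hf k s else 0 := by
  rcases Int.units_eq_one_or k with rfl | rfl <;> rcases Int.units_eq_one_or l with rfl | rfl <;>
    simp [hf, mul_add, add_mul, h, smul_smul] <;> module

lemma hf_star {s : R} (h : star s = s) (k : ℤˣ) : star (hf k s) = hf k s := by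
  simp [hf, h]

lemma hf_sum (s : R) : ∑ k, hf k s = 1 := by
  have hu : (Finset.univ : Finset ℤˣ) = {1, -1} := by decide
  rw [hu, Finset.sum_pair (by decide)]
  simp [hf]; module

lemma hf_comm {s a : R} (h : Commute s a) (k : ℤˣ) : Commute (hf k s) a :=
  ((Commute.one_left a).add_left (h.smul_left _)).smul_left _

lemma hf_map (f : R ≃⋆ₐ[ℂ] R) {s : R} {k : ℤˣ} (h : f s = ((k : ℤ) : ℂ) • s) (l : ℤˣ) :
    f (hf l s) = hf (k * l) s := by
  simp [hf, h, smul_smul, mul_comm, mul_assoc]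

/-- an involution made from a unitary and two anticommuting involutions -/
noncomputable def inv (u X Z : R) : R :=
  (2⁻¹ : ℂ) • ((u + star u) * X) + (2⁻¹ * Complex.I : ℂ) • ((u - star u) * Z)

lemma inv_comm {u X Z a : R} (h1 : Commute u a) (h2 : Commute (star u) a) (h3 : Commute X a)
    (h4 : Commute Z a) : Commute (inv u X Z) a :=
  (((h1.add_left h2).mul_left h3).smul_left _).add_left
    (((h1.sub_left h2).mul_left h4).smul_left _)

lemma inv_ok {u X Z : R} (h1 : u * star u = 1) (h2 : star u * u = 1) (x1 : star X = X)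
    (z1 : star Z = Z) (x2 : X * X = 1) (z2 : Z * Z = 1) (xz : Z * X = -(X * Z))
    (ux : Commute u X) (uz : Commute u Z) :
    star (inv u X Z) = inv u X Z ∧ inv u X Z * inv u X Z = 1 := by
  have vx : Commute (star u) X := by simpa [x1] using ux.star_star
  have vz : Commute (star u) Z := by simpa [z1] using uz.star_star
  have px := (ux.add_left vx).eq
  have pz := (uz.add_left vz).eq
  have qx := (ux.sub_left vx).eq
  have qz := (uz.sub_left vz).eq
  have e1 : star (u + star u) = u + star u := by rw [star_add, star_star, add_comm]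
  have e2 : star (u - star u) = -(u - star u) := by rw [star_sub, star_star, neg_sub]
  have e3 : (u - star u) * (u + star u) = (u + star u) * (u - star u) := by
    simp only [mul_add, add_mul, mul_sub, sub_mul, h1, h2]; abel
  have e4 : (u + star u) * (u + star u) = (u - star u) * (u - star u) + (4 : ℂ) • 1 := by
    simp only [mul_add, add_mul, mul_sub, sub_mul, h1, h2]; module
  unfold inv
  generalize u + star u = p at *
  generalize u - star u = q at *
  constructor
  · simp [e1, e2, x1, z1, px, qz]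
  · have a1 : p * X * (p * X) = q * q + (4 : ℂ) • 1 := by
      rw [mul_assoc, ← mul_assoc X, ← px, mul_assoc, x2, mul_one, e4]
    have a2 : q * Z * (q * Z) = q * q := by
      rw [mul_assoc, ← mul_assoc Z, ← qz, mul_assoc, z2, mul_one]
    have a3 : p * X * (q * Z) = p * q * (X * Z) := by
      rw [mul_assoc, ← mul_assoc X, ← qx, mul_assoc, mul_assoc]
    have a4 : q * Z * (p * X) = -(p * q * (X * Z)) := by
      rw [mul_assoc, ← mul_assoc Z, ← pz, mul_assoc, xz, ← mul_assoc, e3, mul_neg]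
    simp only [mul_add, add_mul, mul_smul_comm, smul_mul_assoc, a1, a2, a3, a4]
    match_scalars <;> ring_nf <;> simp

end

theorem rok : Rokhlin ((cA.pr cB).act (sA.pr sB)) := fun F ε hε => by
  let σ := sA.pr sB
  let w : GA × GB → σ.Alg := fun g => ⟨σ.W g, σ.W_Alg g⟩
  let u : ℕ → GA × GB := fun n => ((1 * (3 ^ n : ℕ), 0), 0)
  let X : ℕ → GA × GB := fun n => (0, (Finsupp.single n 1, 0))
  let Z : ℕ → GA × GB := fun n => (0, (0, Finsupp.single n 1))
  have wc : ∀ g h, σ.s g h = σ.s h g → Commute (w g) (w h) := fun g h e =>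
    Subtype.ext (σ.W_comm e).eq
  have ws : ∀ g, star (w g) * w g = 1 ∧ w g * star (w g) = 1 := fun g =>
    ⟨Subtype.ext (σ.W_sW g), Subtype.ext (σ.W_Ws g)⟩
  have wi : ∀ g, -g = g → σ.s g g = 1 → star (w g) = w g ∧ w g * w g = 1 := fun g e1 e2 => by
    have : star (w g) = w g := Subtype.ext (by
      change star (σ.W g) = σ.W g
      rw [Bi.W_star, e1, e2, one_smul])
    exact ⟨this, by simpa [this] using (ws g).1⟩
  have wa : ∀ k g, (cA.pr cB).act σ k (w g) = (cA.pr cB).c k g • w g := fun k g =>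
    Subtype.ext ((cA.pr cB).ad_W σ k g)
  have n1 : ∀ n, -(Finsupp.single n 1 : F2) = Finsupp.single n 1 := fun n => by
    rw [← Finsupp.single_neg]; rfl
  have hX := fun n => wi (X n) (by simp [X, n1]) (by simp [σ, Bi.pr, X, sB])
  have hZ := fun n => wi (Z n) (by simp [Z, n1]) (by simp [σ, Bi.pr, Z, sB])
  have xz : ∀ n, w (Z n) * w (X n) = -(w (X n) * w (Z n)) := fun n => Subtype.ext (by
    change σ.W _ * σ.W _ = -(σ.W _ * σ.W _)
    rw [Bi.W_mul, Bi.W_mul, add_comm]
    simp [σ, Bi.pr, X, Z, sB, pr_sl])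
  have st : ∀ g (a : σ.Alg), Commute (w g) a → Commute (star (w g)) a := fun g a h => by
    have := h.eq
    rw [Commute, SemiconjBy, ← mul_one (star (w g) * a), ← (ws g).2, ← mul_assoc, mul_assoc _ a,
      ← this, ← mul_assoc, (ws g).1, one_mul]
  let s : ℕ → σ.Alg := fun n => inv (w (u n)) (w (X (2 * n))) (w (Z (2 * n)))
  let Y : ℕ → σ.Alg := fun n => w (X (2 * n + 1))
  have hs : ∀ n, star (s n) = s n ∧ s n * s n = 1 := fun n =>
    inv_ok (ws _).2 (ws _).1 (hX _).1 (hZ _).1 (hX _).2 (hZ _).2 (xz _)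
      (wc _ _ (by simp [σ, Bi.pr, X, u])) (wc _ _ (by simp [σ, Bi.pr, Z, u]))
  have sY : ∀ n, Commute (s n) (Y n) := fun n => by
    have : Commute (w (u n)) (Y n) := wc _ _ (by simp [σ, Bi.pr, X, u])
    exact inv_comm this (st _ _ this) (wc _ _ (by simp [σ, Bi.pr, X, sB]))
      (wc _ _ (by simp [σ, Bi.pr, X, Z, sB, pr_sl]))
  let e : ℕ → ℤˣ × ℤˣ → σ.Alg := fun n k => hf k.1 (s n) * hf k.2 (Y n)
  have em : ∀ n k l, e n k * e n l = if k = l then e n k else 0 := fun n k l => by
    have := (hf_comm (hf_comm (sY n) l.1).symm k.2).eq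
    simp only [e]
    rw [mul_assoc, ← mul_assoc (hf k.2 _), this, mul_assoc, ← mul_assoc, hf_mul (hs n).2,
      hf_mul (hX _).2]
    by_cases e1 : k.1 = l.1
    · by_cases e2 : k.2 = l.2
      · rw [if_pos e1, if_pos e2, if_pos (Prod.ext e1 e2)]
      · rw [if_neg e2, mul_zero, if_neg fun h => e2 (congrArg Prod.snd h)]
    · rw [if_neg e1, zero_mul, if_neg fun h => e1 (congrArg Prod.fst h)]
  have ep : ∀ n k, IsStarProjection (e n k) := fun n k =>
    ⟨(em n k k).trans (if_pos rfl), by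
      have := (hf_comm (hf_comm (sY n) k.1).symm k.2).eq
      simp only [e]
      rw [IsSelfAdjoint, star_mul, hf_star (hs n).1, hf_star (hX _).1, this]⟩
  have ec : ∀ b ∈ σ.Sm, ∀ᶠ n in atTop, ∀ k, Commute (e n k).1 b := by
    refine σ.Sm_ind (fun g => ?_) (Eventually.of_forall fun _ _ => Commute.zero_right _)
      (fun a b h l => (h.and l).mono fun n h k => (h.1 k).add_right (h.2 k))
      fun c a h => h.mono fun n h k => (h k).smul_right c
    have ev0 : ∀ f : F2, ∀ᶠ n in atTop, ∀ m ≥ n, f m = 0 := fun f => by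
      filter_upwards [eventually_gt_atTop (f.support.sup id)] with n hn m hm
      by_contra c
      have := Finset.le_sup (f := id) (Finsupp.mem_support_iff.2 c)
      simp only [id] at this
      omega
    filter_upwards [tor_ev g.1.2, ev0 g.2.1, ev0 g.2.2] with n h1 h2 h3 k
    have c1 : Commute (w (u n)) (w g) := wc _ _ (by
      simp only [σ, Bi.pr, u, sA_c h1, Bi.zl, Bi.zr])
    have c2 : ∀ m ≥ n, Commute (w (X m)) (w g) := fun m hm => wc _ _ (by
      simp [σ, Bi.pr, X, sB, pr_sr, h3 m hm])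
    have c3 : Commute (w (Z (2 * n))) (w g) := wc _ _ (by
      simp [σ, Bi.pr, Z, sB, pr_sl, h2 (2 * n) (by omega)])
    exact congrArg Subtype.val ((hf_comm (inv_comm c1 (st _ _ c1) (c2 _ (by omega)) c3)
      k.1).mul_left (hf_comm (c2 _ (by omega)) k.2)).eq
  have ea : ∀ a : σ.Alg, ∀ᶠ n in atTop, ∀ k, ‖e n k * a - a * e n k‖ < ε := fun a => by
    obtain ⟨b, hb, h1⟩ := σ.approx a.2 (by linarith : 0 < ε / 2)
    filter_upwards [ec b hb] with n hn k
    have h2 : ‖(e n k).1‖ ≤ 1 := by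
      refine IsStarProjection.norm_le _ ⟨congrArg Subtype.val (ep n k).isIdempotentElem.eq,
        congrArg Subtype.val (ep n k).isSelfAdjoint.star_eq⟩
    change ‖(e n k).1 * a.1 - a.1 * (e n k).1‖ < ε
    have : (e n k).1 * a.1 - a.1 * (e n k).1 = (e n k).1 * (a.1 - b) - (a.1 - b) * (e n k).1 := by
      rw [mul_sub, sub_mul, (hn k).eq]; abel
    rw [this]
    have k1 := norm_sub_le ((e n k).1 * (a.1 - b)) ((a.1 - b) * (e n k).1)
    have k2 := norm_mul_le (e n k).1 (a.1 - b)
    have k3 := norm_mul_le (a.1 - b) (e n k).1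
    nlinarith [norm_nonneg (a.1 - b)]
  obtain ⟨n, hn⟩ := ((eventually_all_finset F).2 fun a _ => ea a).exists
  refine ⟨e n, ep n, fun k l h => by rw [em, if_neg h], fun k l => ?_, fun k a h => hn a h k, ?_⟩
  · have ho : Odd (3 ^ n) := Odd.pow (by decide)
    have a1 : (cA.pr cB).act σ k (w (u n)) = ((k.1 : ℤ) : ℂ) • w (u n) := by
      rw [wa]
      simp only [Ch.pr, cA, cB, u, one_mul, zpow_natCast, Prod.fst_zero, map_zero, sg_zero, mul_one]
      rcases Int.units_eq_one_or k.1 with h | h <;> simp [h, ho.neg_one_pow]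
    have a2 : (cA.pr cB).act σ k (s n) = ((k.1 : ℤ) : ℂ) • s n := by
      have t2 : (2 : ZMod 2) = 0 := rfl
      simp only [s, inv, map_add, map_smul, map_mul, map_sub, map_star, a1]
      rw [wa, wa]
      simp [Ch.pr, cA, cB, X, Z, t2, ← smul_add, ← smul_sub]
      module
    have a3 : (cA.pr cB).act σ k (Y n) = ((k.2 : ℤ) : ℂ) • Y n := by
      have t2 : (2 : ZMod 2) = 0 := rfl
      rw [wa]
      simp [Ch.pr, cA, cB, X, Y, t2]
    simp only [e]
    rw [map_mul, hf_map _ a2, hf_map _ a3]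
    simpa using hε
  · simp only [e]
    rw [Fintype.sum_prod_type]
    simp only [← Finset.mul_sum, hf_sum, mul_one]

end Pool.Agent.H.MP_7f0ddb_an
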